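import Pool.Agent.HS38.TT.Main

/-!
# A criterion: linear relations between the blocks of values
-/

set_option autoImplicit false

open Finset Filter Topology

namespace Pool.Agent.H86.Sst

open Pool.Agent.Y413.DG Pool.Agent.HS38.TT

/-- **The criterion.** The blocks of the values of `f` with the leading parts `a i` have the same
length and satisfy a fixed linear relation, for infinitely many scales. -/
theorem core {b k : ℕ} (hb : 2 ≤ b) (hk : 2 ≤ k) {f : ℕ → List ℤ} {B : ℕ}
    (hB : ∀ n, ∀ x ∈ f n, |x| ≤ B)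
    (htt : Tendsto (fun N => (tot f N : ℝ)) atTop atTop) {d : ℕ → ℤ}
    (hd : ∀ N, (List.range N).flatMap f = (List.range (tot f N)).map d) {x : ℝ}
    (hx : HasSum (fun t => (d t : ℝ) / (b : ℝ) ^ (t + 1)) x) (hirr : Irrational x)
    {r m M : ℕ} (a : Fin r → ℕ) (hamono : StrictMono a) (ha : ∀ i, a i < k ^ m)
    (c : Fin r → ℤ) (hc0 : c ≠ 0)
    (hfr : ∃ᶠ s : ℕ in atTop, ∃ L : ℕ, (∀ i, (blk f k (a i) s).length = L) ∧
      ∑ i, c i * val b (blk f k (a i) s) = 0 ∧ tot f (k ^ (m + s)) ≤ M * L) :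
    Transcendental ℚ x := by
  classical
  intro halg
  have hb0 : (0 : ℝ) < b := by exact_mod_cast (by omega : 0 < b)
  have hb1 : (1 : ℝ) < b := by exact_mod_cast (by omega : 1 < b)
  have hdB : ∀ t, |d t| ≤ B := by
    intro t
    obtain ⟨N, hN⟩ := (htt.eventually_gt_atTop (t : ℝ)).exists
    have hN' : t < tot f N := by exact_mod_cast hN
    have h1 : d t ∈ (List.range N).flatMap f := by
      rw [hd N]
      exact List.mem_map_of_mem (List.mem_range.2 hN')
    obtain ⟨n, -, hn⟩ := List.mem_flatMap.1 h1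
    exact hB n _ hn
  -- constants
  set S : ℤ := ∑ i, |c i| with hS
  obtain ⟨Bc, hBc⟩ : ∃ Bc : ℕ, ∀ i, |c i| ≤ Bc := by
    refine ⟨(∑ i, |c i|).toNat, fun i => ?_⟩
    have h1 : |c i| ≤ ∑ i, |c i| := single_le_sum (f := fun i => |c i|) (fun _ _ => abs_nonneg _)
      (mem_univ i)
    exact h1.trans (Int.self_le_toNat _)
  set ε : ℝ := 1 / (2 * ((M : ℝ) + 1)) with hε
  have hM1 : (0 : ℝ) < (M : ℝ) + 1 := by positivity
  have hε0 : 0 < ε := by positivity
  obtain ⟨N0, hN0⟩ := ok b hb (fun _ : Fin 1 => x) (fun _ => halg) (indep_one hirr)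
    r Bc 0 ε hε0
  obtain ⟨K, c', hc', hdom⟩ := dom b hb (fun i => (c i : ℝ))
  -- a good scale
  have htt2 : Tendsto (fun s : ℕ => (tot f (k ^ (m + s)) : ℝ)) atTop atTop := by
    refine htt.comp ((tendsto_pow_atTop_atTop_of_one_lt (by omega : 1 < k)).comp ?_)
    exact tendsto_atTop_mono (f := fun s => s) (fun s => by omega) tendsto_id
  have hexp : Tendsto (fun s : ℕ => (b : ℝ) ^ (ε * (tot f (k ^ (m + s)) : ℝ))) atTop atTop := by
    have h1 : Tendsto (fun y : ℝ => (b : ℝ) ^ (ε * y)) atTop atTop := by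
      have h2 : ∀ y : ℝ, (b : ℝ) ^ (ε * y) = Real.exp (Real.log b * ε * y) := by
        intro y
        rw [Real.rpow_def_of_pos hb0]
        ring_nf
      simp only [h2]
      exact Real.tendsto_exp_atTop.comp
        (tendsto_id.const_mul_atTop (mul_pos (Real.log_pos hb1) hε0))
    exact h1.comp htt2
  obtain ⟨s, ⟨L, hLi, hval, hs1⟩, hs3, hs4, hs5⟩ := (hfr.and_eventually
    ((htt2.eventually_ge_atTop (N0 : ℝ)).and
      ((htt2.eventually_gt_atTop (((M : ℝ) + 1) * (K + 1))).and
        (hexp.eventually_gt_atTop ((S : ℝ) * B))))).exists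
  set N := tot f (k ^ (m + s)) with hN
  set n : Fin r → ℕ := fun i => tot f (a i * k ^ s) with hn
  have hnN : ∀ i, n i ≤ N := by
    intro i
    apply tot_mono f
    rw [pow_add]
    exact Nat.mul_le_mul_right _ (ha i).le
  have hgap : ∀ i j, i < j → n i + L ≤ n j := by
    intro i j hij
    rw [← hLi i, hn]
    show tot f (a i * k ^ s) + _ ≤ tot f (a j * k ^ s)
    rw [← tot_blk]
    exact tot_mono f (Nat.mul_le_mul_right _ (hamono hij))
  have hLN : (N : ℝ) ≤ ((M : ℝ) + 1) * L := by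
    have h1 : (N : ℝ) ≤ (M : ℝ) * L := by exact_mod_cast hs1
    have h2 : (0 : ℝ) ≤ L := Nat.cast_nonneg _
    linarith
  have hLK : K < L := by
    have h1 : ((M : ℝ) + 1) * (K + 1) < ((M : ℝ) + 1) * L := lt_of_lt_of_le hs4 hLN
    have h2 := lt_of_mul_lt_mul_left h1 (by positivity)
    have h3 : (K : ℝ) < L := by linarith
    exact_mod_cast h3
  -- the expansions
  have hx' : Exp b x d := hx
  have htail := fun i => hx'.tail hb (n i)
  choose I y hy1 hy2 using htail
  have hw : ∀ i, ∃ y', y i * (b : ℝ) ^ L = val b (blk f k (a i) s) + y' ∧ |y'| ≤ B := by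
    intro i
    obtain ⟨y', h1, h2⟩ := exp_word hb (blk f k (a i) s) (y i) _ (hy2 i) (fun t ht =>
      word_at hd t ht)
    rw [hLi i] at h1
    exact ⟨y', h1, h2.bound hb fun t => hdB _⟩
  choose y' hy3 hy4 using hw
  -- the relation
  have hsum : (∑ i, (c i : ℝ) * y i) * (b : ℝ) ^ L = ∑ i, (c i : ℝ) * y' i := by
    rw [sum_mul]
    have h1 : ∀ i, (c i : ℝ) * y i * (b : ℝ) ^ L =
        (c i : ℝ) * (val b (blk f k (a i) s) : ℝ) + (c i : ℝ) * y' i := by
      intro i
      rw [mul_assoc, hy3 i]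
      ring
    rw [sum_congr rfl fun i _ => h1 i, sum_add_distrib]
    have h2 : ∑ i, (c i : ℝ) * (val b (blk f k (a i) s) : ℝ) = 0 := by exact_mod_cast hval
    rw [h2, zero_add]
  have hsmall : |∑ i, (c i : ℝ) * y i| * (b : ℝ) ^ L ≤ S * B := by
    have hbL : (0 : ℝ) < (b : ℝ) ^ L := by positivity
    rw [← abs_of_pos hbL, ← abs_mul, hsum]
    calc |∑ i, (c i : ℝ) * y' i| ≤ ∑ i, |(c i : ℝ) * y' i| := abs_sum_le_sum_abs _ _
      _ ≤ ∑ i, |(c i : ℝ)| * B := by
          apply sum_le_sum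
          intro i _
          rw [abs_mul]
          exact mul_le_mul_of_nonneg_left (hy4 i) (abs_nonneg _)
      _ = S * B := by
          rw [← sum_mul, hS]
          push_cast
          rfl
  -- the subspace theorem
  have hok := hN0 N (by exact_mod_cast hs3) (fun i => (n i : ℤ)) (fun i _ => c i) (fun _ => 0)
    (∑ i, c i * I i)
    (by
      intro i
      rw [abs_of_nonneg (Int.natCast_nonneg _)]
      exact_mod_cast hnN i)
    (fun i _ => hBc i) (by intro i; simp) (by intro i _; simp)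
    (by
      refine ⟨0, ?_⟩
      obtain ⟨i, hi⟩ := Function.ne_iff.1 hc0
      have h1 := hdom (fun i => (n i : ℤ)) (by
        intro i j hij
        rcases lt_or_gt_of_ne hij with h | h
        · have := hgap i j h
          rw [abs_sub_comm, lt_abs]
          left
          omega
        · have := hgap j i h
          rw [lt_abs]
          left
          omega) i (by exact_mod_cast hi)
      intro h0
      rw [h0, abs_zero] at h1
      have h2 : 0 < c' * (b : ℝ) ^ ((n i : ℕ) : ℤ) := by positivity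
      linarith)
  have hexpr : ∑ i, (∑ k : Fin 1, ((c i : ℤ) : ℝ) * (fun _ : Fin 1 => x) k + ((0 : ℤ) : ℝ)) *
      (b : ℝ) ^ ((n i : ℕ) : ℤ) - ((∑ i, c i * I i : ℤ) : ℝ) = ∑ i, (c i : ℝ) * y i := by
    have h1 : ∀ i, (∑ k : Fin 1, ((c i : ℤ) : ℝ) * (fun _ : Fin 1 => x) k + ((0 : ℤ) : ℝ)) *
        (b : ℝ) ^ ((n i : ℕ) : ℤ) = (c i : ℝ) * I i + (c i : ℝ) * y i := by
      intro i
      rw [Fin.sum_univ_one, Int.cast_zero, add_zero, zpow_natCast, mul_assoc, hy1 i]
      ring
    rw [sum_congr rfl fun i _ => h1 i, sum_add_distrib]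
    push_cast
    ring
  rw [hexpr] at hok
  -- the contradiction
  have h1 : (b : ℝ) ^ (-(ε * N)) * (b : ℝ) ^ L < S * B := by
    refine lt_of_lt_of_le ?_ hsmall
    exact mul_lt_mul_of_pos_right hok (by positivity)
  have h2 : (b : ℝ) ^ (ε * N) ≤ (b : ℝ) ^ (-(ε * N)) * (b : ℝ) ^ L := by
    rw [← Real.rpow_natCast, ← Real.rpow_add hb0]
    apply Real.rpow_le_rpow_of_exponent_le hb1.le
    have h3 : ε * N ≤ L / 2 := by
      rw [hε, div_mul_eq_mul_div, one_mul, div_le_div_iff₀ (by positivity) (by norm_num)]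
      linarith
    linarith
  linarith

end Pool.Agent.H86.Sst
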