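import Pool.Agent.H86.Sst.Core

/-!
# Patterns of the blocks with finitely many holes
-/

set_option autoImplicit false

open Finset Filter Topology

namespace Pool.Agent.H86.Sst

open Pool.Agent.HS38.TT

/-- The blocks of the values with the leading part `a` (for the numbers `a` with `cl a`) are the words which
arise from a pattern which only depends on the type of `a`, by filling the holes with words which
depend on `a`. -/
structure Holes (f : ℕ → List ℤ) (k : ℕ) (T X : Type) where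
  /-- the leading parts -/
  cl : ℕ → Prop
  /-- the types -/
  typ : ℕ → T
  /-- the words for the holes -/
  o : ℕ → X → List ℤ
  /-- the patterns -/
  pat : ∀ a0, cl a0 → ∀ s, ∃ π : List (List ℤ ⊕ X), ∀ a, cl a → typ a = typ a0 →
    blk f k a s = ev (o a) π

variable {f : ℕ → List ℤ} {k : ℕ} {T X : Type}

/-- the type and the lengths of the words for the holes -/
def Holes.cls (H : Holes f k T X) (a : ℕ) : T × (X → ℕ) := (H.typ a, fun x => (H.o a x).length)

lemma Holes.len_cls (H : Holes f k T X) {a a' : ℕ} (ha : H.cl a) (ha' : H.cl a')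
    (h : H.cls a' = H.cls a) (s : ℕ) : (blk f k a s).length = (blk f k a' s).length := by
  obtain ⟨π, hπ⟩ := H.pat a ha s
  rw [hπ a ha rfl, hπ a' ha' (congrArg Prod.fst h)]
  apply ev_len
  intro q
  exact (congrFun (congrArg Prod.snd h) q).symm

lemma Holes.len_cmp (H : Holes f k T X) {a a' K : ℕ} (ha : H.cl a) (ha' : H.cl a')
    (hab : H.typ a' = H.typ a) (hw : ∀ x, H.o a' x = [] → H.o a x = []) (hK1 : 1 ≤ K)
    (hK : ∀ x, (H.o a x).length ≤ K) (s : ℕ) :
    (blk f k a s).length ≤ K * (blk f k a' s).length := by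
  obtain ⟨π, hπ⟩ := H.pat a ha s
  rw [hπ a ha rfl, hπ a' ha' hab]
  apply ev_cmp hK1
  intro q
  by_cases h : H.o a' q = []
  · rw [hw q h]
    simp
  · have h1 : 1 ≤ (H.o a' q).length := List.length_pos_iff.2 h
    calc (H.o a q).length ≤ K * 1 := by rw [mul_one]; exact hK q
      _ ≤ K * (H.o a' q).length := Nat.mul_le_mul_left _ h1

/-- the linear relation -/
lemma Holes.rel [Fintype X] (H : Holes f k T X) (b : ℕ) (a : Fin (Fintype.card X + 2) → ℕ)
    (hcl : ∀ i, H.cl (a i)) {a0 : ℕ} (h : ∀ i, H.cls (a i) = H.cls a0) :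
    ∃ c : Fin (Fintype.card X + 2) → ℤ, c ≠ 0 ∧ ∀ s, ∑ i, c i * val b (blk f k (a i) s) = 0 := by
  obtain ⟨c, hc0, hc1, hc2⟩ := exists_coef b (fun i => H.o (a i))
  refine ⟨c, hc0, fun s => ?_⟩
  obtain ⟨π, hπ⟩ := H.pat (a 0) (hcl 0) s
  have h1 : ∀ i, blk f k (a i) s = ev (H.o (a i)) π := fun i =>
    hπ (a i) (hcl i) (congrArg Prod.fst ((h i).trans (h 0).symm))
  simp only [h1]
  apply lin b c (fun i => H.o (a i)) _ hc1 hc2
  intro i j q
  exact congrFun (congrArg Prod.snd ((h i).trans (h j).symm)) q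

/-- many leading parts in a class, with long blocks for infinitely many scales -/
theorem Holes.finish [Fintype X] (H : Holes f k T X) {b : ℕ} (hb : 2 ≤ b) (hk : 2 ≤ k) {B : ℕ}
    (hB : ∀ n, ∀ x ∈ f n, |x| ≤ B)
    (htt : Tendsto (fun N => (tot f N : ℝ)) atTop atTop) {d : ℕ → ℤ}
    (hd : ∀ N, (List.range N).flatMap f = (List.range (tot f N)).map d) {x : ℝ}
    (hx : HasSum (fun t => (d t : ℝ) / (b : ℝ) ^ (t + 1)) x) (hirr : Irrational x)
    {m M a0 : ℕ} {S : Finset ℕ} (hS : ∀ a ∈ S, a < k ^ m ∧ H.cl a ∧ H.cls a = H.cls a0)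
    (hcard : Fintype.card X + 2 ≤ S.card) (h0 : H.cl a0)
    (hfr : ∃ᶠ s : ℕ in atTop, tot f (k ^ (m + s)) ≤ M * (blk f k a0 s).length) :
    Transcendental ℚ x := by
  classical
  obtain ⟨C', hC', hcard'⟩ := exists_subset_card_eq hcard
  set a : Fin (Fintype.card X + 2) → ℕ := fun i => C'.orderEmbOfFin hcard' i with ha
  have hamem : ∀ i, a i < k ^ m ∧ H.cl (a i) ∧ H.cls (a i) = H.cls a0 := fun i =>
    hS _ (hC' (orderEmbOfFin_mem C' hcard' i))
  have hamono : StrictMono a := (C'.orderEmbOfFin hcard').strictMono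
  obtain ⟨c, hc0, hc⟩ := H.rel b a (fun i => (hamem i).2.1) (fun i => (hamem i).2.2)
  refine core hb hk hB htt hd hx hirr a hamono (fun i => (hamem i).1) c hc0 (m := m) (M := M)
    (hfr.mono fun s hs => ⟨(blk f k a0 s).length, fun i => ?_, hc s, hs⟩)
  exact H.len_cls (hamem i).2.1 h0 (hamem i).2.2.symm s

/-! ### growth -/

/-- fast growth infinitely often -/
lemma freq_growth2 {u : ℕ → ℝ} {ρ ρ' G : ℝ} (h0 : 0 < ρ') (h1 : ρ' < ρ) (h2 : 1 ≤ ρ) {c0 m : ℕ}
    (hm : c0 < m) (hG : G ≤ ρ' ^ (m - c0)) (hu0 : ∀ S, 0 ≤ u S)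
    (hu : ∀ᶠ S : ℕ in atTop, ρ ^ S ≤ u S) :
    ∃ᶠ s : ℕ in atTop, G * u (c0 + s) ≤ u (m + s) := by
  by_contra hcon
  rw [not_frequently, eventually_atTop] at hcon
  obtain ⟨s0, hs0⟩ := hcon
  set h := m - c0 with hh
  have h3 : ∀ j : ℕ, u (c0 + s0 + j * h) ≤ ρ' ^ (j * h) * u (c0 + s0) := by
    intro j
    induction j with
    | zero => simp
    | succ j ih =>
      have h2 := hs0 (s0 + j * h) (by omega)
      push Not at h2
      rw [show m + (s0 + j * h) = c0 + s0 + (j + 1) * h by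
        rw [Nat.add_mul, one_mul]; omega,
        show c0 + (s0 + j * h) = c0 + s0 + j * h by ring] at h2
      calc u (c0 + s0 + (j + 1) * h) ≤ G * u (c0 + s0 + j * h) := h2.le
        _ ≤ ρ' ^ h * (ρ' ^ (j * h) * u (c0 + s0)) :=
            mul_le_mul hG ih (hu0 _) (by positivity)
        _ = ρ' ^ ((j + 1) * h) * u (c0 + s0) := by
            rw [Nat.add_mul, one_mul, pow_add]
            ring
  have h4 : Tendsto (fun j : ℕ => c0 + s0 + j * h) atTop atTop := by
    apply tendsto_atTop_mono (f := fun j => j) _ tendsto_id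
    intro j
    have : j * 1 ≤ j * h := Nat.mul_le_mul_left _ (by omega)
    omega
  have h5 := h4.eventually hu
  have hq : 1 < ρ / ρ' := (one_lt_div h0).2 h1
  have h6 : Tendsto (fun j : ℕ => (ρ / ρ') ^ j) atTop atTop :=
    tendsto_pow_atTop_atTop_of_one_lt hq
  obtain ⟨j, hj1, hj2⟩ := (h5.and (h6.eventually_gt_atTop (u (c0 + s0)))).exists
  have h7 := (hj1.trans (h3 j))
  have h8 : ρ ^ (j * h) ≤ ρ ^ (c0 + s0 + j * h) := pow_le_pow_right₀ h2 (by omega)
  have h9 : (0 : ℝ) < ρ' ^ (j * h) := by positivity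
  have h10 : (ρ / ρ') ^ (j * h) ≤ u (c0 + s0) := by
    rw [div_pow, div_le_iff₀ h9]
    linarith
  have h11 : (ρ / ρ') ^ j ≤ (ρ / ρ') ^ (j * h) := by
    apply pow_le_pow_right₀ hq.le
    have : j * 1 ≤ j * h := Nat.mul_le_mul_left _ (by omega)
    omega
  linarith

/-- representatives -/
lemma Holes.exists_rep [Finite T] [Finite X] (H : Holes f k T X) (hk : 2 ≤ k) : ∃ c0 : ℕ, ∀ a, 1 ≤ a →
    ∃ a', 1 ≤ a' ∧ a' < k ^ c0 ∧ H.typ a' = H.typ a ∧ ∀ x, H.o a' x = [] → H.o a x = [] := by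
  classical
  let key : ℕ → T × Set X := fun a => (H.typ a, {x | H.o a x = []})
  have h1 : ∀ v, ∃ a' : ℕ, (∃ a, 1 ≤ a ∧ key a = v) → 1 ≤ a' ∧ key a' = v := by
    intro v
    by_cases h : ∃ a, 1 ≤ a ∧ key a = v
    · obtain ⟨a, h2, h3⟩ := h
      exact ⟨a, fun _ => ⟨h2, h3⟩⟩
    · exact ⟨0, fun h' => absurd h' h⟩
  choose r hr using h1
  have hfin : Finite (T × Set X) := inferInstance
  obtain ⟨M, hM⟩ := (Set.finite_range r).bddAbove
  refine ⟨M, fun a ha => ⟨r (key a), ?_⟩⟩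
  obtain ⟨h2, h3⟩ := hr (key a) ⟨a, ha, rfl⟩
  refine ⟨h2, ?_, congrArg Prod.fst h3, ?_⟩
  · have h4 : r (key a) ≤ M := hM ⟨_, rfl⟩
    exact lt_of_le_of_lt h4 (Nat.lt_pow_self (by omega))
  · intro x hx
    have h4 : {x | H.o (r (key a)) x = []} = {x | H.o a x = []} := congrArg Prod.snd h3
    have h5 : x ∈ {x | H.o (r (key a)) x = []} := hx
    rw [h4] at h5
    exact h5

open Classical in
/-- one scale -/
lemma Holes.one_scale [Fintype T] [Fintype X] (H : Holes f k T X) (hk : 2 ≤ k)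
    (hall : ∀ a, 1 ≤ a → H.cl a) {c0 m s K R : ℕ}
    (hc0 : ∀ a, 1 ≤ a → ∃ a', 1 ≤ a' ∧ a' < k ^ c0 ∧ H.typ a' = H.typ a ∧
      ∀ x, H.o a' x = [] → H.o a x = []) (hK1 : 1 ≤ K)
    (hK : ∀ a, 1 ≤ a → a < k ^ m → ∀ x, (H.o a x).length ≤ K)
    (hbig : 2 * ((Fintype.card T * (K + 1) ^ Fintype.card X) * R * K + 1) *
      tot f (k ^ (c0 + s)) ≤ tot f (k ^ (m + s))) (hpos : 0 < tot f (k ^ (m + s))) :
    ∃ a ∈ Ico 1 (k ^ m), R < ((Ico 1 (k ^ m)).filter (fun a' => H.cls a' = H.cls a)).card ∧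
      tot f (k ^ (m + s)) ≤ 2 * k ^ m * (blk f k a s).length := by
  by_contra hcon
  push Not at hcon
  set Λ := tot f (k ^ (m + s)) with hΛ
  set u := tot f (k ^ (c0 + s)) with hu
  set Kc := Fintype.card T * (K + 1) ^ Fintype.card X with hKc
  set S := Ico 1 (k ^ m) with hS
  set good := S.filter (fun a => R < (S.filter (fun a' => H.cls a' = H.cls a)).card) with hgood
  set bad := S.filter (fun a => ¬ R < (S.filter (fun a' => H.cls a' = H.cls a)).card) with hbad
  have hsum : Λ = (blk f k 0 s).length + ∑ a ∈ S, (blk f k a s).length := by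
    rw [hΛ, pow_add, tot_sum, range_eq_Ico, sum_eq_sum_Ico_succ_bot (by positivity)]
  have hsplit : ∑ a ∈ S, (blk f k a s).length =
      ∑ a ∈ good, (blk f k a s).length + ∑ a ∈ bad, (blk f k a s).length :=
    (sum_filter_add_sum_filter_not S _ _).symm
  -- the blocks are not too long
  have hu0 : (blk f k 0 s).length ≤ u := by
    have h1 : (blk f k 0 s).length = tot f (k ^ s) := by
      have := tot_blk f k 0 s
      simp only [zero_add, one_mul, zero_mul] at this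
      rw [this]
      simp [tot]
    rw [h1, hu]
    exact tot_mono f (Nat.pow_le_pow_right (by omega) (by omega))
  have hmax : ∀ a ∈ S, (blk f k a s).length ≤ K * u := by
    intro a ha
    rw [hS, Finset.mem_Ico] at ha
    obtain ⟨a', h1, h2, h3, h4⟩ := hc0 a ha.1
    refine (H.len_cmp (hall a ha.1) (hall a' h1) h3 h4 hK1 (hK a ha.1 ha.2) s).trans
      (Nat.mul_le_mul_left _ ?_)
    rw [hu, pow_add, tot_sum]
    exact single_le_sum (f := fun a => (blk f k a s).length) (fun _ _ => Nat.zero_le _)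
      (mem_range.2 h2)
  -- few bad ones
  have hbadc : bad.card ≤ Kc * R := by
    have h1 : bad.card ≤ R * (bad.image H.cls).card := by
      apply card_le_mul_card_image
      intro v hv
      rw [mem_image] at hv
      obtain ⟨a, ha, rfl⟩ := hv
      have h2 := (mem_filter.1 ha).2
      push Not at h2
      refine le_trans (card_le_card ?_) h2
      intro z hz
      rw [mem_filter] at hz ⊢
      exact ⟨(mem_filter.1 hz.1).1, hz.2⟩
    have h2 : (bad.image H.cls).card ≤ Kc := by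
      have h3 : bad.image H.cls ⊆ (univ : Finset T) ×ˢ
          (Fintype.piFinset fun _ : X => range (K + 1)) := by
        intro v hv
        rw [mem_image] at hv
        obtain ⟨a, ha, rfl⟩ := hv
        rw [mem_product, Fintype.mem_piFinset]
        refine ⟨mem_univ _, fun q => mem_range.2 ?_⟩
        have h4 := (Finset.mem_Ico.1 (mem_filter.1 ha).1)
        exact Nat.lt_succ_of_le (hK a h4.1 h4.2 q)
      refine (card_le_card h3).trans ?_
      rw [card_product, Fintype.card_piFinset, prod_const, card_univ, card_range, card_univ]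
    calc bad.card ≤ R * (bad.image H.cls).card := h1
      _ ≤ R * Kc := Nat.mul_le_mul_left _ h2
      _ = Kc * R := mul_comm _ _
  have hbads : ∑ a ∈ bad, (blk f k a s).length ≤ Kc * R * K * u := by
    calc ∑ a ∈ bad, (blk f k a s).length ≤ ∑ a ∈ bad, K * u :=
          sum_le_sum fun a ha => hmax a (mem_filter.1 ha).1
      _ = bad.card * (K * u) := by rw [sum_const, smul_eq_mul]
      _ ≤ Kc * R * (K * u) := Nat.mul_le_mul_right _ hbadc
      _ = Kc * R * K * u := by ring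
  have hgoods : 2 * k ^ m * ∑ a ∈ good, (blk f k a s).length ≤ good.card * Λ := by
    rw [mul_sum]
    calc ∑ a ∈ good, 2 * k ^ m * (blk f k a s).length ≤ ∑ a ∈ good, Λ := by
          apply sum_le_sum
          intro a ha
          have h1 := mem_filter.1 ha
          exact (hcon a h1.1 h1.2).le
      _ = good.card * Λ := by rw [sum_const, smul_eq_mul]
  have hgc : good.card + 1 ≤ k ^ m := by
    have h1 : good.card ≤ S.card := card_le_card (filter_subset _ _)
    rw [hS, Nat.card_Ico] at h1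
    have : 0 < k ^ m := by positivity
    omega
  -- the contradiction
  have h1 : 2 * k ^ m * ∑ a ∈ good, (blk f k a s).length ≤ k ^ m * Λ - Λ := by
    refine hgoods.trans ?_
    rw [← Nat.sub_one_mul]
    exact Nat.mul_le_mul_right _ (by omega)
  have hkm : 0 < k ^ m := by positivity
  have h2 : k ^ m * Λ ≥ Λ := Nat.le_mul_of_pos_left _ hkm
  have h3 : 2 * (∑ a ∈ good, (blk f k a s).length) * k ^ m < Λ * k ^ m := by
    have : 2 * (∑ a ∈ good, (blk f k a s).length) * k ^ m = 2 * k ^ m * ∑ a ∈ good, (blk f k a s).length := by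
      ring
    rw [this, mul_comm Λ]
    omega
  have h4 : 2 * (∑ a ∈ good, (blk f k a s).length) < Λ := lt_of_mul_lt_mul_right h3 (Nat.zero_le _)
  have h5 : 2 * (Kc * R * K + 1) * u = 2 * (Kc * R * K * u) + 2 * u := by ring
  rw [h5] at hbig
  omega

lemma tot_rho {k : ℕ} (hk : 2 ≤ k) {δ : ℝ} {f : ℕ → List ℤ}
    (hgrow : ∀ᶠ N : ℕ in atTop, (N : ℝ) ^ δ ≤ tot f N) :
    ∀ᶠ S : ℕ in atTop, ((k : ℝ) ^ δ) ^ S ≤ (tot f (k ^ S) : ℝ) := by
  have h1 : Tendsto (fun S : ℕ => k ^ S) atTop atTop :=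
    tendsto_pow_atTop_atTop_of_one_lt (by omega)
  filter_upwards [h1.eventually hgrow] with S hS
  refine le_trans (le_of_eq ?_) hS
  push_cast
  rw [← Real.rpow_natCast, ← Real.rpow_mul (by positivity), ← Real.rpow_natCast,
    ← Real.rpow_mul (by positivity)]
  congr 1
  ring

open Classical in
/-- **A large class with long blocks.** -/
theorem Holes.growth [Finite T] [Fintype X] (H : Holes f k T X) (hk : 2 ≤ k)
    (hall : ∀ a, 1 ≤ a → H.cl a) {C ε δ : ℝ} (hC : 0 ≤ C) (hε : 0 ≤ ε)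
    (hεδ : ((Fintype.card X : ℝ) + 1) * ε < δ)
    (hlen : ∀ m a, 1 ≤ a → a < k ^ m → ∀ x, ((H.o a x).length : ℝ) ≤ C * ((k : ℝ) ^ ε) ^ m)
    (hgrow : ∀ᶠ N : ℕ in atTop, (N : ℝ) ^ δ ≤ tot f N) (R : ℕ) :
    ∃ (m a : ℕ), a ∈ Ico 1 (k ^ m) ∧
      R < ((Ico 1 (k ^ m)).filter (fun a' => H.cls a' = H.cls a)).card ∧
      ∃ᶠ s : ℕ in atTop, tot f (k ^ (m + s)) ≤ 2 * k ^ m * (blk f k a s).length := by
  have := Fintype.ofFinite T
  obtain ⟨c0, hc0⟩ := H.exists_rep hk
  have hk1 : (1 : ℝ) < k := by exact_mod_cast (by omega : 1 < k)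
  have hk0 : (0 : ℝ) < k := by linarith
  set q := Fintype.card X with hq
  set C1 := Fintype.card T with hC1
  obtain ⟨δ', hδ1, hδ2⟩ := exists_between hεδ
  set κ : ℝ := (k : ℝ) ^ ε with hκ
  have hκ1 : 1 ≤ κ := Real.one_le_rpow hk1.le hε
  set ρ' : ℝ := (k : ℝ) ^ δ' with hρ'
  set ρ : ℝ := (k : ℝ) ^ δ with hρ
  have hρ'0 : 0 < ρ' := Real.rpow_pos_of_pos hk0 _
  have hρρ : ρ' < ρ := Real.rpow_lt_rpow_of_exponent_lt hk1 hδ2
  have hqe : 0 ≤ ((q : ℝ) + 1) * ε := by positivity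
  have hρ1 : 1 ≤ ρ := Real.one_le_rpow hk1.le (by linarith)
  have hκρ : κ ^ (q + 1) < ρ' := by
    rw [hκ, hρ', ← Real.rpow_natCast, ← Real.rpow_mul hk0.le]
    apply Real.rpow_lt_rpow_of_exponent_lt hk1
    push_cast
    linarith
  -- the choice of `m`
  obtain ⟨m, hm1, hm2⟩ : ∃ m : ℕ, c0 < m ∧
      2 * ((C1 : ℝ) * R + 1) * (C + 3) ^ (q + 1) * (κ ^ (q + 1)) ^ m ≤ ρ' ^ (m - c0) := by
    have hκ0 : 0 < κ ^ (q + 1) := by positivity
    have h1 : 1 < ρ' / κ ^ (q + 1) := (one_lt_div hκ0).2 hκρ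
    have h2 := (tendsto_pow_atTop_atTop_of_one_lt h1).eventually_ge_atTop
      (2 * ((C1 : ℝ) * R + 1) * (C + 3) ^ (q + 1) * ρ' ^ c0)
    obtain ⟨m, hm1, hm2⟩ := (h2.and (eventually_gt_atTop c0)).exists
    refine ⟨m, hm2, ?_⟩
    rw [div_pow, le_div_iff₀ (by positivity)] at hm1
    have h3 : ρ' ^ m = ρ' ^ (m - c0) * ρ' ^ c0 := by
      rw [← pow_add]
      congr 1
      omega
    rw [h3] at hm1
    have h4 : 0 < ρ' ^ c0 := by positivity
    refine le_of_mul_le_mul_right ?_ h4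
    calc _ = 2 * ((C1 : ℝ) * R + 1) * (C + 3) ^ (q + 1) * ρ' ^ c0 * (κ ^ (q + 1)) ^ m := by ring
      _ ≤ _ := hm1
  set K := ⌊C * κ ^ m⌋₊ + 1 with hK
  set G := 2 * ((C1 * (K + 1) ^ q) * R * K + 1) with hG
  have hκm : 1 ≤ κ ^ m := one_le_pow₀ hκ1
  have hK2 : ((K : ℝ) + 1) ≤ (C + 3) * κ ^ m := by
    have h1 : ((⌊C * κ ^ m⌋₊ : ℕ) : ℝ) ≤ C * κ ^ m := Nat.floor_le (by positivity)
    rw [hK]
    push_cast
    nlinarith
  have hGle : (G : ℝ) ≤ ρ' ^ (m - c0) := by
    refine le_trans ?_ hm2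
    have h1 : (G : ℝ) ≤ 2 * ((C1 : ℝ) * R + 1) * ((K : ℝ) + 1) ^ (q + 1) := by
      have h2 : G ≤ 2 * (C1 * R + 1) * (K + 1) ^ (q + 1) := by
        have h3 : 1 ≤ (K + 1) ^ (q + 1) := Nat.one_le_pow _ _ (by omega)
        calc G = 2 * (C1 * R) * ((K + 1) ^ q * K) + 2 := by rw [hG]; ring
          _ ≤ 2 * (C1 * R) * ((K + 1) ^ q * (K + 1)) + 2 * (K + 1) ^ (q + 1) := by
            apply Nat.add_le_add
            · apply Nat.mul_le_mul_left
              apply Nat.mul_le_mul_left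
              omega
            · omega
          _ = 2 * (C1 * R + 1) * (K + 1) ^ (q + 1) := by
            rw [pow_succ (K + 1) q]
            ring
      exact_mod_cast h2
    refine h1.trans ?_
    have h2 : ((K : ℝ) + 1) ^ (q + 1) ≤ ((C + 3) * κ ^ m) ^ (q + 1) :=
      pow_le_pow_left₀ (by positivity) hK2 _
    calc 2 * ((C1 : ℝ) * R + 1) * ((K : ℝ) + 1) ^ (q + 1)
        ≤ 2 * ((C1 : ℝ) * R + 1) * ((C + 3) * κ ^ m) ^ (q + 1) := by
          apply mul_le_mul_of_nonneg_left h2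
          positivity
      _ = 2 * ((C1 : ℝ) * R + 1) * (C + 3) ^ (q + 1) * (κ ^ (q + 1)) ^ m := by
          rw [mul_pow, ← pow_mul, ← pow_mul, mul_comm m (q + 1)]
          ring
  have hu := tot_rho hk hgrow
  have hfr := freq_growth2 (u := fun S => (tot f (k ^ S) : ℝ)) hρ'0 hρρ hρ1 hm1 hGle
    (fun _ => Nat.cast_nonneg _) hu
  -- for each such scale
  have hfr2 : ∃ᶠ s : ℕ in atTop, ∃ a ∈ Ico 1 (k ^ m),
      R < ((Ico 1 (k ^ m)).filter (fun a' => H.cls a' = H.cls a)).card ∧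
      tot f (k ^ (m + s)) ≤ 2 * k ^ m * (blk f k a s).length := by
    have h1 : Tendsto (fun s : ℕ => m + s) atTop atTop := tendsto_atTop_mono (f := fun s => s)
      (fun s => by omega) tendsto_id
    refine (hfr.and_eventually (h1.eventually hu)).mono ?_
    rintro s ⟨h2, h4⟩
    have h5 : (0 : ℝ) < (tot f (k ^ (m + s)) : ℝ) :=
      lt_of_lt_of_le (by positivity) h4
    refine H.one_scale hk hall (K := K) hc0 (Nat.succ_pos _) ?_ ?_ (by exact_mod_cast h5)
    · intro a ha1 ha x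
      have h6 := Nat.le_floor (hlen m a ha1 ha x)
      omega
    · exact_mod_cast h2
  -- pigeonhole
  by_contra hcon
  push Not at hcon
  have h1 : ∀ a ∈ Ico 1 (k ^ m), ∀ᶠ s : ℕ in atTop,
      ¬ (R < ((Ico 1 (k ^ m)).filter (fun a' => H.cls a' = H.cls a)).card ∧
      tot f (k ^ (m + s)) ≤ 2 * k ^ m * (blk f k a s).length) := by
    intro a ha
    by_cases hR : R < ((Ico 1 (k ^ m)).filter (fun a' => H.cls a' = H.cls a)).card
    · have h2 := hcon m a ha (by convert hR)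
      filter_upwards [h2] with s hs
      rintro ⟨-, h4⟩
      exact absurd h4 (not_le.2 hs)
    · exact Eventually.of_forall fun s h => hR h.1
  have h2 := (eventually_all_finset _).2 h1
  obtain ⟨s, ⟨a, ha, h3⟩, h4⟩ := (hfr2.and_eventually h2).exists
  exact h4 a ha h3

/-- **First criterion.** -/
theorem Holes.main [Finite T] [Fintype X] (H : Holes f k T X) {b : ℕ} (hb : 2 ≤ b) (hk : 2 ≤ k)
    (hall : ∀ a, 1 ≤ a → H.cl a) {C ε δ : ℝ} (hC : 0 ≤ C) (hε : 0 ≤ ε)
    (hεδ : ((Fintype.card X : ℝ) + 1) * ε < δ)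
    (hlen : ∀ m a, 1 ≤ a → a < k ^ m → ∀ x, ((H.o a x).length : ℝ) ≤ C * ((k : ℝ) ^ ε) ^ m)
    (hgrow : ∀ᶠ N : ℕ in atTop, (N : ℝ) ^ δ ≤ tot f N) {B : ℕ}
    (hB : ∀ n, ∀ x ∈ f n, |x| ≤ B) {d : ℕ → ℤ}
    (hd : ∀ N, (List.range N).flatMap f = (List.range (tot f N)).map d) {x : ℝ}
    (hx : HasSum (fun t => (d t : ℝ) / (b : ℝ) ^ (t + 1)) x) (hirr : Irrational x) :
    Transcendental ℚ x := by
  classical
  have hδ : 0 < δ := lt_of_le_of_lt (by positivity) hεδ
  obtain ⟨m, a0, ha0, hR, hfr⟩ := H.growth hk hall hC hε hεδ hlen hgrow (Fintype.card X + 1)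
  rw [Finset.mem_Ico] at ha0
  refine H.finish hb hk hB (tot_tendsto hδ hgrow) hd hx hirr
    (S := (Ico 1 (k ^ m)).filter (fun a' => H.cls a' = H.cls a0)) (m := m) (M := 2 * k ^ m)
    (a0 := a0) ?_ ?_ (hall a0 ha0.1) hfr
  · intro a ha
    rw [mem_filter, Finset.mem_Ico] at ha
    exact ⟨ha.1.2, hall a ha.1.1, ha.2⟩
  · have h1 : Fintype.card X + 1 <
        ((Ico 1 (k ^ m)).filter (fun a' => H.cls a' = H.cls a0)).card := by
      convert hR
    exact h1

end Pool.Agent.H86.Sst
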