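import Pool.Agent.HS38.TT.Main

/-!
# Deterministic pushdown automata with string registers
-/

set_option autoImplicit false

open Finset Filter Topology

namespace Pool.Agent.H86.Sst

open Pool.Agent.HS38.TT

/-- A deterministic pushdown automaton with states `Q`, stack symbols `Γ` and registers `X` which
contain words. An update of the registers assigns to each of them a list of fixed words and of
registers; its new content is the concatenation of these words and of the old contents of these
registers (the same register may be used repeatedly). -/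
structure Machine (Q Γ X : Type) where
  /-- the initial state; the stack is empty in the beginning -/
  start : Q
  /-- the initial contents of the registers -/
  init : X → List ℤ
  /-- in the state `q`, with `γ` on top of the stack, `γ` is removed from the stack without reading
  a digit if `pop q γ` is not `none`; the new state and the update -/
  pop : Q → Γ → Option (Q × (X → List (List ℤ ⊕ X)))
  /-- in the state `q`, with `h` on top of the stack (`none` if the stack is empty), the digit `d`
  is read: the new state, the word which replaces the top symbol, and the update -/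
  read : Q → Option Γ → ℕ → Q × List Γ × (X → List (List ℤ ⊕ X))
  /-- the output in the end, as a list of fixed words and of registers -/
  out : Q → Option Γ → List (List ℤ ⊕ X)

variable {Q Γ X : Type}

/-- symbols are removed from the stack as long as `pop` is defined -/
def Machine.settle (M : Machine Q Γ X) : List Γ → Q → (X → List ℤ) → Q × List Γ × (X → List ℤ)
  | [], q, ρ => (q, [], ρ)
  | γ :: s, q, ρ =>
    match M.pop q γ with
    | none => (q, γ :: s, ρ)
    | some r => M.settle s r.1 (fun x => ev ρ (r.2 x))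

/-- reading a digit, from a configuration (state, stack, contents of the registers) -/
def Machine.next (M : Machine Q Γ X) (c : Q × List Γ × (X → List ℤ)) (d : ℕ) :
    Q × List Γ × (X → List ℤ) :=
  M.settle ((M.read c.1 c.2.1.head? d).2.1 ++ c.2.1.tail) (M.read c.1 c.2.1.head? d).1
    (fun x => ev c.2.2 ((M.read c.1 c.2.1.head? d).2.2 x))

/-- the configuration after reading the digits of the list `l` -/
def Machine.run (M : Machine Q Γ X) (c : Q × List Γ × (X → List ℤ)) (l : List ℕ) :
    Q × List Γ × (X → List ℤ) :=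
  l.foldl M.next c

/-- the output in the configuration `c` -/
def Machine.output (M : Machine Q Γ X) (c : Q × List Γ × (X → List ℤ)) : List ℤ :=
  ev c.2.2 (M.out c.1 c.2.1.head?)

/-- the configuration after reading the digits of `n` in base `k`, from the most significant one
to the least significant one -/
def Machine.conf (M : Machine Q Γ X) (k n : ℕ) : Q × List Γ × (X → List ℤ) :=
  M.run (M.start, [], M.init) (Nat.digits k n).reverse

/-- the word which the machine computes from the number `n` -/
def Machine.word (M : Machine Q Γ X) (k n : ℕ) : List ℤ := M.output (M.conf k n)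

/-! ### patterns -/

/-- composition of an update and a pattern -/
def sb (u : X → List (List ℤ ⊕ X)) (π : List (List ℤ ⊕ X)) : List (List ℤ ⊕ X) :=
  π.flatMap (Sum.elim (fun w => [Sum.inl w]) u)

lemma ev_single (ρ : X → List ℤ) (x : X) : ev ρ [Sum.inr x] = ρ x := by
  simp [ev]

lemma ev_sb (ρ : X → List ℤ) (u : X → List (List ℤ ⊕ X)) (π : List (List ℤ ⊕ X)) :
    ev ρ (sb u π) = ev (fun x => ev ρ (u x)) π := by
  induction π with
  | nil => rfl
  | cons y π ih =>
    cases y with
    | inl w =>
      rw [ev_inl, ← ih]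
      show ev ρ ([Sum.inl w] ++ sb u π) = _
      rw [ev_append, ev_inl, ev_nil, List.append_nil]
    | inr x =>
      rw [ev_inr, ← ih]
      show ev ρ (u x ++ sb u π) = _
      rw [ev_append]

lemma ev_congr {ρ ρ' : X → List ℤ} {π : List (List ℤ ⊕ X)}
    (h : ∀ x, Sum.inr x ∈ π → ρ x = ρ' x) : ev ρ π = ev ρ' π := by
  induction π with
  | nil => rfl
  | cons y π ih =>
    have ih' := ih fun x hx => h x (List.mem_cons_of_mem _ hx)
    cases y with
    | inl w => rw [ev_inl, ev_inl, ih']
    | inr x => rw [ev_inr, ev_inr, ih', h x (List.mem_cons_self ..)]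

lemma ev_mem_length {ρ : X → List ℤ} {π : List (List ℤ ⊕ X)} {x : X} (h : Sum.inr x ∈ π) :
    (ρ x).length ≤ (ev ρ π).length := by
  induction π with
  | nil => simp at h
  | cons y π ih =>
    rcases List.mem_cons.1 h with h1 | h1
    · rw [← h1, ev_inr, List.length_append]
      omega
    · have := ih h1
      cases y with
      | inl w => rw [ev_inl, List.length_append]; omega
      | inr z => rw [ev_inr, List.length_append]; omega

lemma ev_flatMap {ι : Type} (ρ : X → List ℤ) (g : ι → List (List ℤ ⊕ X)) (l : List ι) :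
    ev ρ (l.flatMap g) = l.flatMap fun i => ev ρ (g i) := by
  induction l with
  | nil => rfl
  | cons i l ih => rw [List.flatMap_cons, List.flatMap_cons, ev_append, ih]

variable (M : Machine Q Γ X)

lemma settle_pat (s : List Γ) : ∀ q, ∃ (q' : Q) (s' : List Γ) (σ : X → List (List ℤ ⊕ X)),
    ∀ ρ, M.settle s q ρ = (q', s', fun x => ev ρ (σ x)) := by
  induction s with
  | nil =>
    intro q
    refine ⟨q, [], fun x => [Sum.inr x], fun ρ => ?_⟩
    simp only [ev_single]
    rfl
  | cons γ s ih =>
    intro q
    cases h : M.pop q γ with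
    | none =>
      refine ⟨q, γ :: s, fun x => [Sum.inr x], fun ρ => ?_⟩
      simp only [ev_single]
      rw [Machine.settle, h]
    | some r =>
      obtain ⟨q', s', σ, h1⟩ := ih r.1
      refine ⟨q', s', fun x => sb r.2 (σ x), fun ρ => ?_⟩
      rw [Machine.settle, h]
      show M.settle s r.1 (fun x => ev ρ (r.2 x)) = _
      rw [h1]
      simp only [ev_sb]

lemma next_pat (q : Q) (s : List Γ) (d : ℕ) : ∃ (q' : Q) (s' : List Γ)
    (σ : X → List (List ℤ ⊕ X)), ∀ ρ, M.next (q, s, ρ) d = (q', s', fun x => ev ρ (σ x)) := by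
  obtain ⟨q', s', σ, h⟩ := settle_pat M ((M.read q s.head? d).2.1 ++ s.tail) (M.read q s.head? d).1
  refine ⟨q', s', fun x => sb (M.read q s.head? d).2.2 (σ x), fun ρ => ?_⟩
  show M.settle ((M.read q s.head? d).2.1 ++ s.tail) (M.read q s.head? d).1
    (fun x => ev ρ ((M.read q s.head? d).2.2 x)) = _
  rw [h]
  simp only [ev_sb]

lemma run_pat (l : List ℕ) : ∀ (q : Q) (s : List Γ), ∃ (q' : Q) (s' : List Γ)
    (σ : X → List (List ℤ ⊕ X)), ∀ ρ, M.run (q, s, ρ) l = (q', s', fun x => ev ρ (σ x)) := by
  induction l with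
  | nil =>
    intro q s
    refine ⟨q, s, fun x => [Sum.inr x], fun ρ => ?_⟩
    simp only [ev_single]
    rfl
  | cons d l ih =>
    intro q s
    obtain ⟨q1, s1, σ1, h1⟩ := next_pat M q s d
    obtain ⟨q2, s2, σ2, h2⟩ := ih q1 s1
    refine ⟨q2, s2, fun x => sb σ1 (σ2 x), fun ρ => ?_⟩
    show M.run (M.next (q, s, ρ) d) l = _
    rw [h1, h2]
    simp only [ev_sb]

lemma run_append_list (c : Q × List Γ × (X → List ℤ)) (l l' : List ℕ) :
    M.run c (l ++ l') = M.run (M.run c l) l' := List.foldl_append

/-! ### the lower part of the stack -/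

lemma settle_append (u t : List Γ) : ∀ (q : Q) (ρ : X → List ℤ),
    ((M.settle u q ρ).2.1 ≠ [] → M.settle (u ++ t) q ρ =
      ((M.settle u q ρ).1, (M.settle u q ρ).2.1 ++ t, (M.settle u q ρ).2.2)) ∧
    ((M.settle u q ρ).2.1 = [] → M.settle (u ++ t) q ρ =
      M.settle t (M.settle u q ρ).1 (M.settle u q ρ).2.2) := by
  induction u with
  | nil =>
    intro q ρ
    refine ⟨fun h => absurd rfl h, fun _ => rfl⟩
  | cons γ u ih =>
    intro q ρ
    rw [List.cons_append]
    cases h : M.pop q γ with
    | none =>
      simp only [Machine.settle, h]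
      refine ⟨fun _ => rfl, fun h => absurd h (by simp)⟩
    | some r =>
      simp only [Machine.settle, h]
      exact ih r.1 _

lemma settle_len (s : List Γ) : ∀ (q : Q) (ρ : X → List ℤ), (M.settle s q ρ).2.1.length ≤ s.length := by
  induction s with
  | nil => intro q ρ; exact le_rfl
  | cons γ s ih =>
    intro q ρ
    cases h : M.pop q γ with
    | none => simp only [Machine.settle, h]; exact le_rfl
    | some r =>
      simp only [Machine.settle, h]
      exact (ih r.1 _).trans (by simp)

lemma next_append {u t : List Γ} (hu : u ≠ []) (q : Q) (ρ : X → List ℤ) (d : ℕ) :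
    ((M.next (q, u, ρ) d).2.1 ≠ [] → M.next (q, u ++ t, ρ) d =
      ((M.next (q, u, ρ) d).1, (M.next (q, u, ρ) d).2.1 ++ t, (M.next (q, u, ρ) d).2.2)) ∧
    ((M.next (q, u, ρ) d).2.1 = [] → M.next (q, u ++ t, ρ) d =
      M.settle t (M.next (q, u, ρ) d).1 (M.next (q, u, ρ) d).2.2) := by
  obtain ⟨γ, u', rfl⟩ := List.exists_cons_of_ne_nil hu
  have h := settle_append M ((M.read q (some γ) d).2.1 ++ u') t (M.read q (some γ) d).1
    (fun x => ev ρ ((M.read q (some γ) d).2.2 x))
  rw [List.append_assoc] at h
  exact h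

lemma run_append {t : List Γ} (l : List ℕ) : ∀ (u : List Γ) (q : Q) (ρ : X → List ℤ),
    (∀ l', l' <+: l → (M.run (q, u, ρ) l').2.1 ≠ []) → M.run (q, u ++ t, ρ) l =
      ((M.run (q, u, ρ) l).1, (M.run (q, u, ρ) l).2.1 ++ t, (M.run (q, u, ρ) l).2.2) := by
  induction l with
  | nil => intro u q ρ _; rfl
  | cons d l ih =>
    intro u q ρ h
    have hu : u ≠ [] := h [] (List.nil_prefix)
    have h1 : (M.next (q, u, ρ) d).2.1 ≠ [] := h [d] (by simp)
    have h2 := (next_append M (t := t) hu q ρ d).1 h1
    show M.run (M.next (q, u ++ t, ρ) d) l = _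
    rw [h2]
    exact ih _ _ _ fun l' hl' => h (d :: l') (by
      rw [List.cons_prefix_cons]
      exact ⟨rfl, hl'⟩)

/-- with `γ` on top of the stack, the symbols below `γ` will never be seen -/
def Machine.Closed (M : Machine Q Γ X) (k : ℕ) (q : Q) (γ : Γ) : Prop :=
  ∀ l : List ℕ, (∀ d ∈ l, d < k) → ∀ ρ, (M.run (q, [γ], ρ) l).2.1 ≠ []

/-- the type of a configuration -/
def ty (c : Q × List Γ × (X → List ℤ)) : Q × Option Γ := (c.1, c.2.1.head?)

/-- closed types -/
def Machine.CT (M : Machine Q Γ X) (k : ℕ) (τ : Q × Option Γ) : Prop :=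
  ∀ γ, τ.2 = some γ → M.Closed k τ.1 γ

/-- the future of a configuration with a closed type -/
lemma fut {k : ℕ} {τ : Q × Option Γ} (hτ : M.CT k τ) (l : List ℕ) (hl : ∀ d ∈ l, d < k) :
    ∃ π : List (List ℤ ⊕ X), ∀ c : Q × List Γ × (X → List ℤ), ty c = τ →
      M.output (M.run c l) = ev c.2.2 π := by
  obtain ⟨q, h⟩ := τ
  cases h with
  | none =>
    obtain ⟨q', s', σ, h1⟩ := run_pat M l q []
    refine ⟨sb σ (M.out q' s'.head?), ?_⟩
    rintro ⟨q0, s0, ρ⟩ hc
    simp only [ty, Prod.mk.injEq, List.head?_eq_none_iff] at hc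
    obtain ⟨rfl, rfl⟩ := hc
    rw [h1, ev_sb]
    rfl
  | some γ =>
    obtain ⟨q', s', σ, h1⟩ := run_pat M l q [γ]
    refine ⟨sb σ (M.out q' s'.head?), ?_⟩
    rintro ⟨q0, s0, ρ⟩ hc
    simp only [ty, Prod.mk.injEq] at hc
    obtain ⟨rfl, hc⟩ := hc
    obtain ⟨t, rfl⟩ := List.head?_eq_some_iff.1 hc
    have hcl : M.Closed k q0 γ := hτ γ rfl
    have h2 := run_append M (t := t) l [γ] q0 ρ (fun l' hl' => hcl l' (fun d hd =>
      hl d (hl'.subset hd)) ρ)
    have h3 : s' ≠ [] := by
      have := hcl l hl ρ
      rw [h1] at this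
      exact this
    rw [h1] at h2
    show M.output (M.run (q0, [γ] ++ t, ρ) l) = _
    rw [h2, ev_sb]
    show ev _ (M.out q' (s' ++ t).head?) = _
    rw [List.head?_append_of_ne_nil _ h3]

/-! ### numbers -/

/-- the last `s` digits of a number with the last digits `b`, from the most significant one -/
def pd (k s b : ℕ) : List ℕ :=
  (Nat.digits k b ++ List.replicate (s - (Nat.digits k b).length) 0).reverse

lemma pd_lt {k : ℕ} (hk : 2 ≤ k) (s b : ℕ) : ∀ d ∈ pd k s b, d < k := by
  intro d hd
  unfold pd at hd
  rw [List.mem_reverse, List.mem_append] at hd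
  rcases hd with h | h
  · exact Nat.digits_lt_base (by omega) h
  · rw [List.mem_replicate] at h
    omega

lemma word_split {k : ℕ} (hk : 2 ≤ k) {a s b : ℕ} (ha : 1 ≤ a) (hb : b < k ^ s) :
    M.word k (a * k ^ s + b) = M.output (M.run (M.conf k a) (pd k s b)) := by
  unfold Machine.word Machine.conf
  rw [digits_split hk ha hb, List.reverse_append, run_append_list]
  rfl

lemma digits_ext {k : ℕ} (hk : 2 ≤ k) {a : ℕ} (ha : 1 ≤ a) (l : List ℕ) (hl : ∀ d ∈ l, d < k) :
    Nat.digits k (a * k ^ l.length + Nat.ofDigits k l.reverse) = l.reverse ++ Nat.digits k a := by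
  have h1 : a * k ^ l.length + Nat.ofDigits k l.reverse =
      Nat.ofDigits k (l.reverse ++ Nat.digits k a) := by
    rw [Nat.ofDigits_append, Nat.ofDigits_digits, List.length_reverse]
    ring
  rw [h1]
  apply Nat.digits_ofDigits k (by omega)
  · intro d hd
    rcases List.mem_append.1 hd with h | h
    · exact hl d (List.mem_reverse.1 h)
    · exact Nat.digits_lt_base (by omega) h
  · intro h
    have h2 : Nat.digits k a ≠ [] := Nat.digits_ne_nil_iff_ne_zero.2 (by omega)
    rw [List.getLast_append_of_ne_nil _ h2]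
    exact Nat.getLast_digit_ne_zero k (by omega)

/-- the number with the leading part `a` and the last digits `l` -/
def ext (k a : ℕ) (l : List ℕ) : ℕ := a * k ^ l.length + Nat.ofDigits k l.reverse

lemma conf_ext {k : ℕ} (hk : 2 ≤ k) {a : ℕ} (ha : 1 ≤ a) (l : List ℕ) (hl : ∀ d ∈ l, d < k) :
    M.conf k (ext k a l) = M.run (M.conf k a) l := by
  unfold Machine.conf ext
  rw [digits_ext hk ha l hl, List.reverse_append, List.reverse_reverse, run_append_list]

lemma ext_pos {k : ℕ} (hk : 2 ≤ k) {a : ℕ} (ha : 1 ≤ a) (l : List ℕ) : 1 ≤ ext k a l := by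
  unfold ext
  have : 0 < a * k ^ l.length := by positivity
  omega

lemma ext_lt {k : ℕ} (hk : 2 ≤ k) {a m : ℕ} (ha : 1 ≤ a) (ham : a < k ^ m) (l : List ℕ)
    (hl : ∀ d ∈ l, d < k) : ext k a l < k ^ (m + l.length) := by
  rw [← Nat.digits_length_le_iff (by omega)]
  unfold ext
  rw [digits_ext hk ha l hl, List.length_append, List.length_reverse]
  have := (Nat.digits_length_le_iff (by omega) a).2 ham
  omega

end Pool.Agent.H86.Sst
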