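import Pool.Agent.H86.Sst.Hole
import Pool.Agent.H86.Sst.Mach

/-!
# The holes of a machine with string registers
-/

set_option autoImplicit false

open Finset Filter Topology

namespace Pool.Agent.H86.Sst

open Pool.Agent.HS38.TT

variable {Q Γ X : Type} (M : Machine Q Γ X)

/-! ### the letters are bounded -/

/-- the sum of the absolute values of the letters in a pattern -/
def lsum (π : List (List ℤ ⊕ X)) : ℕ :=
  (π.map (Sum.elim (fun w => (w.map Int.natAbs).sum) (fun _ => 0))).sum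

lemma le_lsum {π : List (List ℤ ⊕ X)} {w : List ℤ} (hw : Sum.inl w ∈ π) {z : ℤ} (hz : z ∈ w) :
    |z| ≤ lsum π := by
  have h1 : z.natAbs ≤ (w.map Int.natAbs).sum := List.le_sum_of_mem (List.mem_map_of_mem hz)
  have h2 : (w.map Int.natAbs).sum ≤ lsum π := List.le_sum_of_mem (List.mem_map.2 ⟨_, hw, rfl⟩)
  rw [Int.abs_eq_natAbs]
  exact_mod_cast h1.trans h2

lemma ev_bd {B : ℕ} {ρ : X → List ℤ} (hρ : ∀ x, ∀ z ∈ ρ x, |z| ≤ B) {π : List (List ℤ ⊕ X)}
    (hπ : lsum π ≤ B) : ∀ z ∈ ev ρ π, |z| ≤ B := by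
  intro z hz
  unfold ev at hz
  obtain ⟨y, hy, hz'⟩ := List.mem_flatMap.1 hz
  cases y with
  | inl w => exact (le_lsum hy hz').trans (by exact_mod_cast hπ)
  | inr x => exact hρ x z hz'

lemma settle_bd {B : ℕ} (h2 : ∀ q γ r x, M.pop q γ = some r → lsum (r.2 x) ≤ B) (s : List Γ) :
    ∀ (q : Q) (ρ : X → List ℤ), (∀ x, ∀ z ∈ ρ x, |z| ≤ B) →
      ∀ x, ∀ z ∈ (M.settle s q ρ).2.2 x, |z| ≤ B := by
  induction s with
  | nil => exact fun q ρ hρ => hρ
  | cons γ s ih =>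
    intro q ρ hρ
    cases h : M.pop q γ with
    | none => simp only [Machine.settle, h]; exact hρ
    | some r =>
      simp only [Machine.settle, h]
      exact ih _ _ fun x => ev_bd hρ (h2 q γ r x h)

lemma run_bd' {k B : ℕ} (h2 : ∀ q γ r x, M.pop q γ = some r → lsum (r.2 x) ≤ B)
    (h3 : ∀ q h d x, d < k → lsum ((M.read q h d).2.2 x) ≤ B) (l : List ℕ) (hl : ∀ d ∈ l, d < k) :
    ∀ c : Q × List Γ × (X → List ℤ), (∀ x, ∀ z ∈ c.2.2 x, |z| ≤ B) →
      ∀ x, ∀ z ∈ (M.run c l).2.2 x, |z| ≤ B := by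
  induction l with
  | nil => exact fun c hc => hc
  | cons d l ih =>
    intro c hc
    show ∀ x, ∀ z ∈ (M.run (M.next c d) l).2.2 x, |z| ≤ B
    apply ih (fun e he => hl e (List.mem_cons_of_mem _ he))
    exact settle_bd M h2 _ _ _ fun x => ev_bd hc (h3 _ _ _ _ (hl d (List.mem_cons_self ..)))

/-- the letters which a finite machine writes are bounded -/
lemma word_bd [Finite Q] [Finite Γ] [Finite X] {k : ℕ} (hk : 2 ≤ k) :
    ∃ B : ℕ, ∀ n, ∀ z ∈ M.word k n, |z| ≤ B := by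
  obtain ⟨B1, h1⟩ := Finite.exists_le (fun x => ((M.init x).map Int.natAbs).sum)
  obtain ⟨B2, h2⟩ := Finite.exists_le (fun p : Q × Γ × X =>
    match M.pop p.1 p.2.1 with
    | none => 0
    | some r => lsum (r.2 p.2.2))
  obtain ⟨B3, h3⟩ := Finite.exists_le (fun p : Q × Option Γ × Fin k × X =>
    lsum ((M.read p.1 p.2.1 p.2.2.1).2.2 p.2.2.2))
  obtain ⟨B4, h4⟩ := Finite.exists_le (fun p : Q × Option Γ => lsum (M.out p.1 p.2))
  refine ⟨B1 + B2 + B3 + B4, fun n => ?_⟩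
  unfold Machine.word Machine.output
  refine ev_bd ?_ ((h4 (_, _)).trans (by omega))
  unfold Machine.conf
  apply run_bd' M (k := k)
  · intro q γ r x h
    have := h2 (q, γ, x)
    simp only [h] at this
    omega
  · intro q h d x hd
    have := h3 (q, h, ⟨d, hd⟩, x)
    simp only at this
    omega
  · intro d hd
    exact Nat.digits_lt_base (by omega) (List.mem_reverse.1 hd)
  · intro x z hz
    have h5 : z.natAbs ≤ ((M.init x).map Int.natAbs).sum := List.le_sum_of_mem (List.mem_map_of_mem hz)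
    have h6 := h5.trans (h1 x)
    rw [Int.abs_eq_natAbs]
    exact_mod_cast h6.trans (by omega)

/-! ### the holes -/

open Classical in
/-- the pattern of the future of the closed type `τ` for the digits `l` -/
noncomputable def Machine.ptn (M : Machine Q Γ X) (k : ℕ) (τ : Q × Option Γ) (l : List ℕ) :
    List (List ℤ ⊕ X) :=
  if h : M.CT k τ ∧ ∀ d ∈ l, d < k then (fut M h.1 l h.2).choose else []

lemma ptn_spec {k : ℕ} {c : Q × List Γ × (X → List ℤ)} (hc : M.CT k (ty c)) {l : List ℕ}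
    (hl : ∀ d ∈ l, d < k) : M.output (M.run c l) = ev c.2.2 (M.ptn k (ty c) l) := by
  unfold Machine.ptn
  rw [dif_pos ⟨hc, hl⟩]
  exact (fut M hc l hl).choose_spec c rfl

/-- the register `x` is needed in the future -/
def Machine.Need (M : Machine Q Γ X) (k : ℕ) (τ : Q × Option Γ) (x : X) : Prop :=
  ∃ l : List ℕ, (∀ d ∈ l, d < k) ∧ Sum.inr x ∈ M.ptn k τ l

open Classical in
/-- the words for the holes -/
noncomputable def Machine.fil (M : Machine Q Γ X) (k a : ℕ) (x : X) : List ℤ :=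
  if M.Need k (ty (M.conf k a)) x then (M.conf k a).2.2 x else []

lemma word_fil {k : ℕ} (hk : 2 ≤ k) {a : ℕ} (ha : 1 ≤ a) (hc : M.CT k (ty (M.conf k a))) {s b : ℕ}
    (hb : b < k ^ s) :
    M.word k (a * k ^ s + b) = ev (M.fil k a) (M.ptn k (ty (M.conf k a)) (pd k s b)) := by
  rw [word_split M hk ha hb, ptn_spec M hc (pd_lt hk s b)]
  apply ev_congr
  intro x hx
  unfold Machine.fil
  rw [if_pos ⟨_, pd_lt hk s b, hx⟩]

/-- the system of holes -/
noncomputable def Machine.holes (M : Machine Q Γ X) {k : ℕ} (hk : 2 ≤ k) :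
    Holes (M.word k) k (Q × Option Γ) X where
  cl a := 1 ≤ a ∧ M.CT k (ty (M.conf k a))
  typ a := ty (M.conf k a)
  o a := M.fil k a
  pat := by
    intro a0 ha0 s
    refine ⟨(List.range (k ^ s)).flatMap fun b => M.ptn k (ty (M.conf k a0)) (pd k s b), ?_⟩
    intro a ha h
    rw [ev_flatMap]
    unfold blk
    apply List.flatMap_congr
    intro b hb
    rw [List.mem_range] at hb
    rw [word_fil M hk ha.1 ha.2 hb, h]

/-- the words for the holes are not longer than some values of the machine -/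
lemma fil_len [Finite Q] [Finite Γ] [Finite X] {k : ℕ} (hk : 2 ≤ k) :
    ∃ B' : ℕ, ∀ a, 1 ≤ a → M.CT k (ty (M.conf k a)) → ∀ x, ∃ l : List ℕ, l.length ≤ B' ∧
      (∀ d ∈ l, d < k) ∧ (M.fil k a x).length ≤ (M.word k (ext k a l)).length := by
  classical
  have h1 : ∀ p : (Q × Option Γ) × X, ∃ l : List ℕ, (∀ d ∈ l, d < k) ∧
      (M.Need k p.1 p.2 → Sum.inr p.2 ∈ M.ptn k p.1 l) := by
    intro p
    by_cases h : M.Need k p.1 p.2
    · obtain ⟨l, h2, h3⟩ := h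
      exact ⟨l, h2, fun _ => h3⟩
    · exact ⟨[], by simp, fun h' => absurd h' h⟩
  choose l hl1 hl2 using h1
  obtain ⟨B', hB'⟩ := Finite.exists_le (fun p => (l p).length)
  refine ⟨B', fun a ha hc x => ⟨l (ty (M.conf k a), x), hB' _, hl1 _, ?_⟩⟩
  unfold Machine.fil
  split_ifs with h
  · have h2 := hl2 (ty (M.conf k a), x) h
    unfold Machine.word
    rw [conf_ext M hk ha _ (hl1 _), ptn_spec M hc (hl1 _)]
    exact ev_mem_length h2
  · simp

/-- a bound which holds eventually holds always, with a constant -/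
lemma all_bound {f : ℕ → List ℤ} {ε : ℝ} (hε : 0 ≤ ε)
    (h : ∀ᶠ n : ℕ in atTop, ((f n).length : ℝ) ≤ (n : ℝ) ^ ε) :
    ∃ C : ℝ, 0 ≤ C ∧ ∀ n : ℕ, ((f n).length : ℝ) ≤ C * ((n : ℝ) + 1) ^ ε := by
  obtain ⟨N0, hN0⟩ := eventually_atTop.1 h
  refine ⟨1 + ∑ n ∈ range N0, ((f n).length : ℝ), by positivity, fun n => ?_⟩
  have h0 : (0 : ℝ) ≤ ∑ n ∈ range N0, ((f n).length : ℝ) := by positivity
  have h1 : (1 : ℝ) ≤ ((n : ℝ) + 1) ^ ε := Real.one_le_rpow (by linarith [Nat.cast_nonneg (α := ℝ) n]) hε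
  by_cases hn : N0 ≤ n
  · refine (hN0 n hn).trans ?_
    have h2 : (n : ℝ) ^ ε ≤ ((n : ℝ) + 1) ^ ε := Real.rpow_le_rpow (by positivity) (by linarith) hε
    nlinarith
  · have h2 : ((f n).length : ℝ) ≤ ∑ n ∈ range N0, ((f n).length : ℝ) :=
      single_le_sum (f := fun n => ((f n).length : ℝ)) (fun _ _ => by positivity)
        (mem_range.2 (by omega))
    nlinarith

/-- the bound for the words for the holes -/
lemma fil_bound [Finite Q] [Finite Γ] [Finite X] {k : ℕ} (hk : 2 ≤ k) {C ε : ℝ} (hC : 0 ≤ C)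
    (hε : 0 ≤ ε) (h : ∀ n : ℕ, ((M.word k n).length : ℝ) ≤ C * ((n : ℝ) + 1) ^ ε) :
    ∃ C' : ℝ, 0 ≤ C' ∧ ∀ m a, 1 ≤ a → a < k ^ m → M.CT k (ty (M.conf k a)) → ∀ x,
      ((M.fil k a x).length : ℝ) ≤ C' * ((k : ℝ) ^ ε) ^ m := by
  obtain ⟨B', hB'⟩ := fil_len M hk
  have hk0 : (0 : ℝ) ≤ k := Nat.cast_nonneg _
  refine ⟨C * ((k : ℝ) ^ ε) ^ B', by positivity, fun m a ha ham hc x => ?_⟩
  obtain ⟨l, hl1, hl2, hl3⟩ := hB' a ha hc x
  have h1 : ext k a l + 1 ≤ k ^ (m + B') :=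
    (ext_lt hk ha ham l hl2).trans_le (Nat.pow_le_pow_right (by omega) (by omega))
  have h2 : ((ext k a l : ℕ) : ℝ) + 1 ≤ (k : ℝ) ^ (m + B') := by exact_mod_cast h1
  calc ((M.fil k a x).length : ℝ) ≤ ((M.word k (ext k a l)).length : ℝ) := by exact_mod_cast hl3
    _ ≤ C * (((ext k a l : ℕ) : ℝ) + 1) ^ ε := h _
    _ ≤ C * ((k : ℝ) ^ (m + B')) ^ ε := by
        apply mul_le_mul_of_nonneg_left _ hC
        exact Real.rpow_le_rpow (by positivity) h2 hε
    _ = C * ((k : ℝ) ^ ε) ^ B' * ((k : ℝ) ^ ε) ^ m := by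
        rw [mul_assoc, ← pow_add, ← Real.rpow_natCast, ← Real.rpow_natCast, ← Real.rpow_mul hk0,
          ← Real.rpow_mul hk0, add_comm m B']
        congr 2
        ring

/-- **Machines without a stack.** -/
theorem main_fin [Finite Q] [IsEmpty Γ] [Fintype X] {b k : ℕ} (hb : 2 ≤ b) (hk : 2 ≤ k) {ε δ : ℝ}
    (hε : 0 ≤ ε) (hεδ : ((Fintype.card X : ℝ) + 1) * ε < δ)
    (hlen : ∀ᶠ n : ℕ in atTop, ((M.word k n).length : ℝ) ≤ (n : ℝ) ^ ε)
    (hgrow : ∀ᶠ N : ℕ in atTop, (N : ℝ) ^ δ ≤ tot (M.word k) N) {d : ℕ → ℤ}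
    (hd : ∀ N, (List.range N).flatMap (M.word k) = (List.range (tot (M.word k) N)).map d) {x : ℝ}
    (hx : HasSum (fun t => (d t : ℝ) / (b : ℝ) ^ (t + 1)) x) (hirr : Irrational x) :
    Transcendental ℚ x := by
  have hct : ∀ τ : Q × Option Γ, M.CT k τ := fun τ γ _ => isEmptyElim γ
  obtain ⟨B, hB⟩ := word_bd M hk
  obtain ⟨C, hC, h1⟩ := all_bound hε hlen
  obtain ⟨C', hC', h2⟩ := fil_bound M hk hC hε h1
  exact (M.holes hk).main hb hk (fun a ha => ⟨ha, hct _⟩) hC' hε hεδ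
    (fun m a ha ham x => h2 m a ha ham (hct _) x) hgrow hB hd hx hirr

end Pool.Agent.H86.Sst
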