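import Pool.Agent.H86.Sst.Mac

/-!
# Pushdown automata with string registers
-/

set_option autoImplicit false

open Finset Filter Topology

namespace Pool.Agent.H86.Sst

open Pool.Agent.HS38.TT

variable {Q Γ X : Type} (M : Machine Q Γ X)

/-! ### closing extensions -/

/-- a symbol which may be removed is removed by a word of digits -/
lemma close_step {k : ℕ} {q : Q} {γ : Γ} (h : ¬ M.Closed k q γ) :
    ∃ l : List ℕ, (∀ d ∈ l, d < k) ∧ ∀ (t : List Γ) (ρ : X → List ℤ),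
      (M.run (q, γ :: t, ρ) l).2.1.length ≤ t.length := by
  classical
  have h1 : ∃ n : ℕ, ∃ l : List ℕ, l.length = n ∧ (∀ d ∈ l, d < k) ∧
      ∃ ρ, (M.run (q, [γ], ρ) l).2.1 = [] := by
    unfold Machine.Closed at h
    push Not at h
    obtain ⟨l, hl, ρ, hρ⟩ := h
    exact ⟨l.length, l, rfl, hl, ρ, hρ⟩
  obtain ⟨l, hl1, hl2, ρ0, hρ0⟩ := Nat.find_spec h1
  have hmin := fun n hn => Nat.find_min h1 (m := n) hn
  rw [← hl1] at hmin
  refine ⟨l, hl2, fun t ρ => ?_⟩
  -- the run with other registers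
  have hρ : (M.run (q, [γ], ρ) l).2.1 = [] := by
    obtain ⟨q', s', σ, h2⟩ := run_pat M l q [γ]
    rw [h2] at hρ0 ⊢
    exact hρ0
  have hne : l ≠ [] := by
    rintro rfl
    exact absurd hρ (List.cons_ne_nil γ [])
  obtain ⟨l1, d, rfl⟩ : ∃ l1 d, l = l1 ++ [d] := ⟨l.dropLast, l.getLast hne, (List.dropLast_append_getLast hne).symm⟩
  have h3 : ∀ l', l' <+: l1 → (M.run (q, [γ], ρ) l').2.1 ≠ [] := by
    intro l' hl' h4
    refine hmin l'.length ?_ ⟨l', rfl, fun d hd => hl2 d (List.mem_append_left _ (hl'.subset hd)), ρ, h4⟩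
    have := hl'.length_le
    rw [List.length_append, List.length_singleton]
    omega
  have h4 := run_append M (t := t) l1 [γ] q ρ h3
  have h5 := h3 l1 List.prefix_rfl
  rw [run_append_list] at hρ
  rw [run_append_list, show γ :: t = [γ] ++ t from rfl, h4]
  obtain ⟨c1, c2, c3, hc⟩ : ∃ c1 c2 c3, M.run (q, [γ], ρ) l1 = (c1, c2, c3) := ⟨_, _, _, rfl⟩
  rw [hc] at h5 hρ
  rw [hc]
  show (M.next (c1, c2 ++ t, c3) d).2.1.length ≤ t.length
  rw [(next_append M (t := t) h5 c1 c3 d).2 hρ]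
  exact settle_len M t _ _

/-- every configuration has a short closing extension -/
lemma close_all [Finite Q] [Finite Γ] (k : ℕ) : ∃ B0 : ℕ, ∀ (n : ℕ) (c : Q × List Γ × (X → List ℤ)),
    c.2.1.length ≤ n → ∃ l : List ℕ, (∀ d ∈ l, d < k) ∧ l.length ≤ B0 * n ∧ M.CT k (ty (M.run c l)) := by
  classical
  have h1 : ∀ p : Q × Γ, ∃ l : List ℕ, (∀ d ∈ l, d < k) ∧ (¬ M.Closed k p.1 p.2 →
      ∀ (t : List Γ) (ρ : X → List ℤ), (M.run (p.1, p.2 :: t, ρ) l).2.1.length ≤ t.length) := by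
    intro p
    by_cases h : M.Closed k p.1 p.2
    · exact ⟨[], by simp, fun h' => absurd h h'⟩
    · obtain ⟨l, h2, h3⟩ := close_step M h
      exact ⟨l, h2, fun _ => h3⟩
  choose l hl1 hl2 using h1
  obtain ⟨B0, hB0⟩ := Finite.exists_le (fun p => (l p).length)
  refine ⟨B0, fun n => ?_⟩
  induction n with
  | zero =>
    intro c hc
    refine ⟨[], by simp, by simp, ?_⟩
    intro γ hγ
    have h2 : c.2.1 = [] := List.eq_nil_of_length_eq_zero (by omega)
    have h3 : c.2.1.head? = some γ := hγ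
    rw [h2] at h3
    exact absurd h3 (by simp)
  | succ n ih =>
    intro c hc
    by_cases h : M.CT k (ty c)
    · exact ⟨[], by simp, by simp, h⟩
    · unfold Machine.CT at h
      push Not at h
      obtain ⟨γ, hγ, h2⟩ := h
      obtain ⟨q, s, ρ⟩ := c
      have h3 : s.head? = some γ := hγ
      obtain ⟨t, rfl⟩ := List.head?_eq_some_iff.1 h3
      have h4 := hl2 (q, γ) h2 t ρ
      have hc' : (γ :: t).length ≤ n + 1 := hc
      rw [List.length_cons] at hc'
      obtain ⟨l', h5, h6, h7⟩ := ih (M.run (q, γ :: t, ρ) (l (q, γ))) (h4.trans (by omega))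
      refine ⟨l (q, γ) ++ l', ?_, ?_, ?_⟩
      · intro d hd
        rcases List.mem_append.1 hd with hd | hd
        · exact hl1 _ d hd
        · exact h5 d hd
      · rw [List.length_append, Nat.mul_succ]
        have := hB0 (q, γ)
        omega
      · rw [run_append_list]
        exact h7

/-- the height of the stack -/
lemma height [Finite Q] [Finite Γ] {k : ℕ} (hk : 2 ≤ k) : ∃ W : ℕ, ∀ a m, a < k ^ m →
    (M.conf k a).2.1.length ≤ W * m := by
  obtain ⟨W, hW⟩ := Finite.exists_le (fun p : Q × Option Γ × Fin k =>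
    (M.read p.1 p.2.1 p.2.2).2.1.length)
  have h1 : ∀ (l : List ℕ), (∀ d ∈ l, d < k) → ∀ c : Q × List Γ × (X → List ℤ),
      (M.run c l).2.1.length ≤ c.2.1.length + W * l.length := by
    intro l
    induction l with
    | nil => intro _ c; exact Nat.le_add_right _ _
    | cons d l ih =>
      intro hl c
      have h2 := ih (fun e he => hl e (List.mem_cons_of_mem _ he)) (M.next c d)
      have h3 : (M.next c d).2.1.length ≤ c.2.1.length + W := by
        refine (settle_len M _ _ _).trans ?_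
        rw [List.length_append, List.length_tail]
        have := hW (c.1, c.2.1.head?, ⟨d, hl d (List.mem_cons_self ..)⟩)
        simp only at this
        omega
      show (M.run (M.next c d) l).2.1.length ≤ _
      rw [List.length_cons, Nat.mul_succ]
      omega
  refine ⟨W, fun a m ha => ?_⟩
  unfold Machine.conf
  refine (h1 _ (fun d hd => Nat.digits_lt_base (by omega) (List.mem_reverse.1 hd)) _).trans ?_
  rw [List.length_reverse]
  have h2 := (Nat.digits_length_le_iff (by omega) a).2 ha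
  show 0 + _ ≤ _
  rw [zero_add]
  exact Nat.mul_le_mul_left _ h2

lemma digits_ext_len {k : ℕ} (hk : 2 ≤ k) {a : ℕ} (ha : 1 ≤ a) (l : List ℕ) (hl : ∀ d ∈ l, d < k) :
    (Nat.digits k (ext k a l)).length = l.length + (Nat.digits k a).length := by
  unfold ext
  rw [digits_ext hk ha l hl, List.length_append, List.length_reverse]

lemma ext_inj {k : ℕ} (hk : 2 ≤ k) {a a' : ℕ} (ha : 1 ≤ a) (ha' : 1 ≤ a') {l l' : List ℕ}
    (hl : ∀ d ∈ l, d < k) (hl' : ∀ d ∈ l', d < k)
    (hd : (Nat.digits k a).length = (Nat.digits k a').length) (h : ext k a l = ext k a' l') :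
    a = a' := by
  have h1 := digits_ext hk ha l hl
  have h2 := digits_ext hk ha' l' hl'
  unfold ext at h
  rw [h, h2] at h1
  have h3 := (List.append_inj' h1 hd.symm).2
  have h4 := congrArg (Nat.ofDigits k) h3
  rw [Nat.ofDigits_digits, Nat.ofDigits_digits] at h4
  exact h4.symm

/-! ### comparable lengths -/

lemma len_range (g : ℕ → List ℤ) (N : ℕ) :
    ((List.range N).flatMap g).length = ∑ b ∈ range N, (g b).length := by
  induction N with
  | zero => rfl
  | succ N ih => rw [List.range_succ, List.flatMap_append, List.length_append, ih, sum_range_succ]; simp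

lemma digits_len {k : ℕ} (hk : 2 ≤ k) {J n : ℕ} (h1 : k ^ J ≤ n) (h2 : n < k ^ (J + 1)) :
    (Nat.digits k n).length = J + 1 := by
  have h3 := (Nat.lt_digits_length_iff (b := k) (by omega) n).2 h1
  have h4 := (Nat.digits_length_le_iff (b := k) (by omega) n).2 h2
  omega

lemma cmp_block {f : ℕ → List ℤ} {k Cc : ℕ} (hk : 2 ≤ k)
    (hc : ∀ n n', (Nat.digits k n).length = (Nat.digits k n').length →
      (f n).length ≤ Cc * (f n').length) {a J j s : ℕ} (ha : 1 ≤ a)
    (haj : (Nat.digits k a).length = j) (hJ : s + j = J + 1) :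
    tot f (k ^ (J + 1)) ≤ tot f (k ^ J) + k ^ j * (Cc * (blk f k a s).length) := by
  have h1 : tot f (k ^ (J + 1)) = tot f (k ^ J) + ∑ n ∈ Ico (k ^ J) (k ^ (J + 1)), (f n).length := by
    unfold tot
    rw [len_range, len_range, range_eq_Ico, range_eq_Ico, sum_Ico_consecutive _ (Nat.zero_le _)
      (Nat.pow_le_pow_right (by omega) (by omega))]
  have h2 : ∀ n ∈ Ico (k ^ J) (k ^ (J + 1)), k ^ s * (f n).length ≤ Cc * (blk f k a s).length := by
    intro n hn
    rw [Finset.mem_Ico] at hn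
    unfold blk
    rw [len_range, mul_sum]
    calc k ^ s * (f n).length = ∑ b ∈ range (k ^ s), (f n).length := by
          rw [sum_const, card_range, smul_eq_mul]
      _ ≤ ∑ b ∈ range (k ^ s), Cc * (f (a * k ^ s + b)).length := by
          apply sum_le_sum
          intro b hb
          apply hc
          rw [digits_len hk hn.1 hn.2, len_split hk ha (mem_range.1 hb), haj]
          omega
  have h3 : k ^ s * ∑ n ∈ Ico (k ^ J) (k ^ (J + 1)), (f n).length ≤
      k ^ s * (k ^ j * (Cc * (blk f k a s).length)) := by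
    rw [mul_sum]
    calc ∑ n ∈ Ico (k ^ J) (k ^ (J + 1)), k ^ s * (f n).length
        ≤ ∑ n ∈ Ico (k ^ J) (k ^ (J + 1)), Cc * (blk f k a s).length := sum_le_sum h2
      _ = (k ^ (J + 1) - k ^ J) * (Cc * (blk f k a s).length) := by
          rw [sum_const, Nat.card_Ico, smul_eq_mul]
      _ ≤ k ^ (J + 1) * (Cc * (blk f k a s).length) := Nat.mul_le_mul_right _ (Nat.sub_le _ _)
      _ = k ^ s * (k ^ j * (Cc * (blk f k a s).length)) := by
          rw [← hJ, pow_add]
          ring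
  have h4 := Nat.le_of_mul_le_mul_left h3 (by positivity)
  omega

/-- for infinitely many scales the block is long -/
lemma cmp_freq {f : ℕ → List ℤ} {k Cc : ℕ} (hk : 2 ≤ k)
    (hc : ∀ n n', (Nat.digits k n).length = (Nat.digits k n').length →
      (f n).length ≤ Cc * (f n').length) {δ : ℝ} (hδ : 0 < δ)
    (hgrow : ∀ᶠ N : ℕ in atTop, (N : ℝ) ^ δ ≤ tot f N) {a j : ℕ} (ha : 1 ≤ a)
    (haj : (Nat.digits k a).length = j) :
    ∃ M : ℕ, ∃ᶠ s : ℕ in atTop, tot f (k ^ (j + s)) ≤ M * (blk f k a s).length := by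
  have hk1 : (1 : ℝ) < k := by exact_mod_cast (by omega : 1 < k)
  have hρ : 1 < (k : ℝ) ^ δ := Real.one_lt_rpow hk1 hδ
  obtain ⟨ρ', h1, h2⟩ := exists_between hρ
  have hfr := freq_growth2 (u := fun S => (tot f (k ^ S) : ℝ)) (c0 := 0) (m := 1) (G := ρ')
    (by linarith) h2 hρ.le one_pos (by simp) (fun _ => Nat.cast_nonneg _) (tot_rho hk hgrow)
  have hj : 1 ≤ j := by
    rw [← haj]
    have : Nat.digits k a ≠ [] := Nat.digits_ne_nil_iff_ne_zero.2 (by omega)
    exact List.length_pos_iff.2 this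
  obtain ⟨D, hD⟩ := exists_nat_ge (ρ' / (ρ' - 1))
  refine ⟨D * (k ^ j * Cc), ?_⟩
  rw [frequently_atTop] at hfr ⊢
  intro s0
  obtain ⟨J, hJ, h3⟩ := hfr (s0 + j)
  rw [zero_add, add_comm 1 J] at h3
  refine ⟨J + 1 - j, by omega, ?_⟩
  have h4 := cmp_block hk hc ha haj (J := J) (s := J + 1 - j) (by omega)
  rw [show j + (J + 1 - j) = J + 1 by omega]
  set L := (blk f k a (J + 1 - j)).length
  have h5 : (tot f (k ^ (J + 1)) : ℝ) ≤ tot f (k ^ J) + (k : ℝ) ^ j * (Cc * L) := by exact_mod_cast h4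
  have h6 : (0 : ℝ) < ρ' - 1 := by linarith
  have h7 : (ρ' - 1) * (tot f (k ^ (J + 1)) : ℝ) ≤ ρ' * ((k : ℝ) ^ j * (Cc * L)) := by
    nlinarith
  have h8 : (tot f (k ^ (J + 1)) : ℝ) ≤ ρ' / (ρ' - 1) * ((k : ℝ) ^ j * (Cc * L)) := by
    rw [div_mul_eq_mul_div, le_div_iff₀ h6]
    linarith
  have h9 : (tot f (k ^ (J + 1)) : ℝ) ≤ D * ((k : ℝ) ^ j * (Cc * L)) :=
    h8.trans (mul_le_mul_of_nonneg_right hD (by positivity))
  have h10 : tot f (k ^ (J + 1)) ≤ D * (k ^ j * (Cc * L)) := by exact_mod_cast h9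
  calc tot f (k ^ (J + 1)) ≤ D * (k ^ j * (Cc * L)) := h10
    _ = D * (k ^ j * Cc) * L := by ring

/-- the choice of the length of the leading parts -/
lemma choose_m {k : ℕ} (hk : 2 ≤ k) (A β : ℕ) : ∃ m : ℕ, 1 ≤ m ∧
    (A : ℝ) * ((β * m + 1 : ℕ) : ℝ) * (Real.sqrt k) ^ m < (k : ℝ) ^ (m - 1) := by
  have hk1 : (1 : ℝ) < k := by exact_mod_cast (by omega : 1 < k)
  have hk0 : (0 : ℝ) < k := by linarith
  have hs : 1 < Real.sqrt k := by
    rw [show (1 : ℝ) = Real.sqrt 1 by simp]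
    exact Real.sqrt_lt_sqrt (by norm_num) hk1
  obtain ⟨m, hm1, hm2⟩ := poly_exp ((A + 1) * (β + 1) * k) 1 0 hs
  refine ⟨m, by omega, ?_⟩
  have hss : Real.sqrt k * Real.sqrt k = k := Real.mul_self_sqrt hk0.le
  have h1 : (k : ℝ) ^ m = Real.sqrt k ^ m * Real.sqrt k ^ m := by
    rw [← mul_pow, hss]
  have h2 : (k : ℝ) ^ m = k ^ (m - 1) * k := by
    rw [← pow_succ]
    congr 1
    omega
  rw [Nat.sub_zero, pow_one] at hm2
  have h3 : (0 : ℝ) < Real.sqrt k ^ m := by positivity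
  have h4 : (A : ℝ) * ((β * m + 1 : ℕ) : ℝ) * k < Real.sqrt k ^ m := by
    refine lt_of_lt_of_le ?_ hm2
    push_cast
    have h5 : ((β : ℝ) * m + 1) ≤ (β + 1) * (m + 1) := by
      have : (0 : ℝ) ≤ (β : ℝ) := Nat.cast_nonneg _
      have : (0 : ℝ) ≤ (m : ℝ) := Nat.cast_nonneg _
      nlinarith
    have h6 : (0 : ℝ) < (β + 1) * (m + 1) := by positivity
    calc (A : ℝ) * ((β : ℝ) * m + 1) * k ≤ A * ((β + 1) * (m + 1)) * k := by gcongr
      _ < (A + 1) * ((β + 1) * (m + 1)) * k := by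
          apply mul_lt_mul_of_pos_right _ hk0
          apply mul_lt_mul_of_pos_right _ h6
          linarith
      _ = (A + 1) * (β + 1) * k * (m + 1) := by ring
  have h7 : (A : ℝ) * ((β * m + 1 : ℕ) : ℝ) * Real.sqrt k ^ m * k < (k : ℝ) ^ (m - 1) * k := by
    rw [← h2, h1]
    calc _ = (A : ℝ) * ((β * m + 1 : ℕ) : ℝ) * k * Real.sqrt k ^ m := by ring
      _ < _ := mul_lt_mul_of_pos_right h4 h3
  exact lt_of_mul_lt_mul_right h7 hk0.le

/-- **Pushdown automata.** -/
theorem main_push [Finite Q] [Finite Γ] [Fintype X] {b k : ℕ} (hb : 2 ≤ b) (hk : 2 ≤ k) {δ : ℝ}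
    (hδ : 0 < δ)
    (hlen : ∀ ε : ℝ, 0 < ε → ∀ᶠ n : ℕ in atTop, ((M.word k n).length : ℝ) ≤ (n : ℝ) ^ ε)
    {Cc : ℕ} (hc : ∀ n n', (Nat.digits k n).length = (Nat.digits k n').length →
      (M.word k n).length ≤ Cc * (M.word k n').length)
    (hgrow : ∀ᶠ N : ℕ in atTop, (N : ℝ) ^ δ ≤ tot (M.word k) N) {d : ℕ → ℤ}
    (hd : ∀ N, (List.range N).flatMap (M.word k) = (List.range (tot (M.word k) N)).map d) {x : ℝ}
    (hx : HasSum (fun t => (d t : ℝ) / (b : ℝ) ^ (t + 1)) x) (hirr : Irrational x) :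
    Transcendental ℚ x := by
  classical
  have := Fintype.ofFinite Q
  have := Fintype.ofFinite Γ
  have hk1 : (1 : ℝ) < k := by exact_mod_cast (by omega : 1 < k)
  have hk0 : (0 : ℝ) < k := by linarith
  obtain ⟨B, hB⟩ := word_bd M hk
  obtain ⟨B0, hB0⟩ := close_all M k
  obtain ⟨W, hW⟩ := height M hk
  set β := 1 + B0 * W with hβ
  set q := Fintype.card X with hq
  set H := M.holes hk with hH
  -- the exponent
  set ε : ℝ := 1 / (2 * β * (q + 1)) with hε
  have hβ1 : (1 : ℝ) ≤ β := by rw [hβ]; push_cast; nlinarith [Nat.cast_nonneg (α := ℝ) (B0 * W)]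
  have hε0 : 0 < ε := by positivity
  obtain ⟨C, hC, h1⟩ := all_bound hε0.le (hlen ε hε0)
  obtain ⟨C', hC', h2⟩ := fil_bound M hk hC hε0.le h1
  set κ : ℝ := (k : ℝ) ^ ε with hκ
  have hκ1 : 1 ≤ κ := Real.one_le_rpow hk1.le hε0.le
  have hκs : (κ ^ β) ^ q ≤ Real.sqrt k := by
    rw [hκ, ← pow_mul, ← Real.rpow_natCast, ← Real.rpow_mul hk0.le, Real.sqrt_eq_rpow]
    apply Real.rpow_le_rpow_of_exponent_le hk1.le
    rw [hε]
    push_cast
    rw [one_div, inv_mul_le_iff₀ (by positivity)]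
    nlinarith
  -- the closed extension of a leading part
  have h3 : ∀ a, ∃ l : List ℕ, (∀ d ∈ l, d < k) ∧ (∀ m, a < k ^ m → l.length ≤ B0 * (W * m)) ∧
      M.CT k (ty (M.run (M.conf k a) l)) := by
    intro a
    have h4 : a < k ^ (Nat.digits k a).length := (Nat.digits_length_le_iff (by omega) a).1 le_rfl
    obtain ⟨l, h5, h6, h7⟩ := hB0 _ (M.conf k a) (hW a _ h4)
    refine ⟨l, h5, fun m hm => h6.trans ?_, h7⟩
    have := (Nat.digits_length_le_iff (b := k) (by omega) a).2 hm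
    exact Nat.mul_le_mul_left _ (Nat.mul_le_mul_left _ this)
  choose l hl1 hl2 hl3 using h3
  obtain ⟨m, hm1, hm2⟩ := choose_m hk ((q + 1) * Fintype.card (Q × Option Γ) * (⌈C'⌉₊ + 2) ^ q) β
  set S := Ico (k ^ (m - 1)) (k ^ m) with hS
  set u : ℕ → ℕ := fun a => ext k a (l a) with hu
  have hS1 : ∀ a ∈ S, 1 ≤ a ∧ a < k ^ m ∧ (Nat.digits k a).length = m := by
    intro a ha
    rw [hS, Finset.mem_Ico] at ha
    have h4 : 0 < k ^ (m - 1) := by positivity
    refine ⟨by omega, ha.2, ?_⟩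
    obtain ⟨m', rfl⟩ : ∃ m', m = m' + 1 := ⟨m - 1, by omega⟩
    exact digits_len hk ha.1 ha.2
  have hu1 : ∀ a ∈ S, (Nat.digits k (u a)).length ≤ β * m := by
    intro a ha
    obtain ⟨h4, h5, h6⟩ := hS1 a ha
    rw [hu]
    show (Nat.digits k (ext k a (l a))).length ≤ _
    rw [digits_ext_len hk h4 _ (hl1 a), h6, hβ]
    have := hl2 a m h5
    calc (l a).length + m ≤ B0 * (W * m) + m := by omega
      _ = (1 + B0 * W) * m := by ring
  have hu2 : ∀ a ∈ S, H.cl (u a) := by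
    intro a ha
    obtain ⟨h4, h5, h6⟩ := hS1 a ha
    refine ⟨ext_pos hk h4 _, ?_⟩
    show M.CT k (ty (M.conf k (ext k a (l a))))
    rw [conf_ext M hk h4 _ (hl1 a)]
    exact hl3 a
  have huinj : ∀ a ∈ S, ∀ a' ∈ S, u a = u a' → a = a' := by
    intro a ha a' ha' h
    obtain ⟨h4, h5, h6⟩ := hS1 a ha
    obtain ⟨h4', h5', h6'⟩ := hS1 a' ha'
    exact ext_inj hk h4 h4' (hl1 a) (hl1 a') (h6.trans h6'.symm) h
  -- the classes
  set K := ⌊C' * κ ^ (β * m)⌋₊ with hK
  set V : Finset (((Q × Option Γ) × (X → ℕ)) × ℕ) :=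
    ((univ : Finset (Q × Option Γ)) ×ˢ (Fintype.piFinset fun _ : X => range (K + 1))) ×ˢ
      range (β * m + 1) with hV
  have hmap : ∀ a ∈ S, (H.cls (u a), (Nat.digits k (u a)).length) ∈ V := by
    intro a ha
    rw [hV, mem_product, mem_product, Fintype.mem_piFinset]
    refine ⟨⟨mem_univ _, fun x => mem_range.2 ?_⟩, mem_range.2 (Nat.lt_succ_of_le (hu1 a ha))⟩
    have h4 : u a < k ^ (β * m) := (Nat.digits_length_le_iff (by omega) _).1 (hu1 a ha)
    have h5 := h2 (β * m) (u a) (hu2 a ha).1 h4 (hu2 a ha).2 x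
    exact Nat.lt_succ_of_le (Nat.le_floor h5)
  have hcard : V.card * (q + 1) < S.card := by
    have h4 : V.card = Fintype.card (Q × Option Γ) * (K + 1) ^ q * (β * m + 1) := by
      rw [hV, card_product, card_product, Fintype.card_piFinset, prod_const, card_univ, card_univ,
        card_range, card_range]
    have h5 : k ^ (m - 1) ≤ S.card := by
      rw [hS, Nat.card_Ico]
      have h6 : k ^ m = k ^ (m - 1) * k := by
        rw [← pow_succ]
        congr 1
        omega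
      rw [h6]
      have h7 : k ^ (m - 1) * 2 ≤ k ^ (m - 1) * k := Nat.mul_le_mul_left _ hk
      omega
    refine lt_of_lt_of_le ?_ h5
    have h6 : ((K : ℝ) + 1) ≤ ((⌈C'⌉₊ : ℝ) + 2) * (κ ^ β) ^ m := by
      have h7 : (K : ℝ) ≤ C' * κ ^ (β * m) := Nat.floor_le (by positivity)
      have h8 : C' ≤ (⌈C'⌉₊ : ℝ) := Nat.le_ceil _
      have h9 : 1 ≤ κ ^ (β * m) := one_le_pow₀ hκ1
      rw [← pow_mul]
      nlinarith
    have h7 : ((K : ℝ) + 1) ^ q ≤ ((⌈C'⌉₊ : ℝ) + 2) ^ q * Real.sqrt k ^ m := by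
      calc ((K : ℝ) + 1) ^ q ≤ (((⌈C'⌉₊ : ℝ) + 2) * (κ ^ β) ^ m) ^ q :=
            pow_le_pow_left₀ (by positivity) h6 _
        _ = ((⌈C'⌉₊ : ℝ) + 2) ^ q * ((κ ^ β) ^ q) ^ m := by
            rw [mul_pow, ← pow_mul (κ ^ β) m q, ← pow_mul (κ ^ β) q m, mul_comm m q]
        _ ≤ ((⌈C'⌉₊ : ℝ) + 2) ^ q * Real.sqrt k ^ m := by
            apply mul_le_mul_of_nonneg_left _ (by positivity)
            exact pow_le_pow_left₀ (by positivity) hκs _
    have h8 : ((V.card * (q + 1) : ℕ) : ℝ) < ((k ^ (m - 1) : ℕ) : ℝ) := by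
      rw [h4]
      push_cast
      push_cast at hm2
      refine lt_of_le_of_lt ?_ hm2
      have h9 : (0 : ℝ) ≤ (Fintype.card Q : ℝ) * ((Fintype.card Γ : ℝ) + 1) := by positivity
      calc _ ≤ ((Fintype.card (Q × Option Γ) : ℕ) : ℝ) * (((⌈C'⌉₊ : ℝ) + 2) ^ q * Real.sqrt k ^ m) *
            ((β : ℝ) * m + 1) * ((q : ℝ) + 1) := by
            gcongr
        _ = _ := by push_cast; ring
    exact_mod_cast h8
  obtain ⟨⟨v, j⟩, hv, hv2⟩ := exists_lt_card_fiber_of_mul_lt_card_of_maps_to hmap hcard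
  set A := S.filter (fun a => (H.cls (u a), (Nat.digits k (u a)).length) = (v, j)) with hA
  have hAne : A.Nonempty := by
    rw [← card_pos]
    omega
  obtain ⟨a0, ha0⟩ := hAne
  have hA1 : ∀ a ∈ A, a ∈ S ∧ H.cls (u a) = v ∧ (Nat.digits k (u a)).length = j := by
    intro a ha
    rw [hA, mem_filter, Prod.mk.injEq] at ha
    exact ha
  obtain ⟨ha1, ha2, ha3⟩ := hA1 a0 ha0
  obtain ⟨M', hM'⟩ := cmp_freq hk hc hδ hgrow (hu2 a0 ha1).1 ha3
  refine H.finish hb hk hB (tot_tendsto hδ hgrow) hd hx hirr (S := A.image u) (m := j) (M := M')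
    (a0 := u a0) ?_ ?_ (hu2 a0 ha1) hM'
  · intro z hz
    rw [mem_image] at hz
    obtain ⟨a, ha, rfl⟩ := hz
    obtain ⟨h4, h5, h6⟩ := hA1 a ha
    exact ⟨(Nat.digits_length_le_iff (by omega) _).1 h6.le, hu2 a h4, h5.trans ha2.symm⟩
  · rw [card_image_of_injOn]
    · exact hv2
    · intro a ha a' ha' h
      exact huinj a (hA1 a ha).1 a' (hA1 a' ha').1 h

end Pool.Agent.H86.Sst
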