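import Pool.Agent.H86.Sst.Push

/-!
# Integer registers: the values are given by linear recurrences for the digits
-/

set_option autoImplicit false

open Finset Filter Topology

namespace Pool.Agent.H86.Sst

open Pool.Agent.HS38.TT

/-- relations between words give relations between their concatenations -/
lemma lin_blk (b : ℕ) {r : ℕ} (c : Fin r → ℤ) (g : Fin r → ℕ → List ℤ) (N : ℕ)
    (h1 : ∀ i j t, t < N → (g i t).length = (g j t).length)
    (h2 : ∀ t, t < N → ∑ i, c i * val b (g i t) = 0) :
    (∀ i j, ((List.range N).flatMap (g i)).length = ((List.range N).flatMap (g j)).length) ∧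
    ∑ i, c i * val b ((List.range N).flatMap (g i)) = 0 := by
  induction N with
  | zero => simp [Pool.Agent.HS38.TT.val]
  | succ N ih =>
    obtain ⟨h3, h4⟩ := ih (fun i j t ht => h1 i j t (by omega)) (fun t ht => h2 t (by omega))
    have e : ∀ i, (List.range (N + 1)).flatMap (g i) = (List.range N).flatMap (g i) ++ g i N := by
      intro i
      rw [List.range_succ, List.flatMap_append]
      simp
    refine ⟨fun i j => ?_, ?_⟩
    · rw [e, e, List.length_append, List.length_append, h3 i j, h1 i j N (by omega)]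
    · rcases Nat.eq_zero_or_pos r with rfl | hr
      · simp
      · have h5 : ∀ i, c i * val b ((List.range (N + 1)).flatMap (g i)) =
            c i * val b ((List.range N).flatMap (g i)) * (b : ℤ) ^ (g ⟨0, hr⟩ N).length +
            c i * val b (g i N) := by
          intro i
          rw [e, val_append, h1 i ⟨0, hr⟩ N (by omega)]
          ring
        rw [sum_congr rfl fun i _ => h5 i, sum_add_distrib, ← sum_mul, h4, h2 N (by omega)]
        simp

section
variable {k D : ℕ} {V : ℕ → Fin D → ℤ} {A : ℕ → Matrix (Fin D) (Fin D) ℤ}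

/-- linear relations are preserved if digits are appended -/
lemma lin_reg (hk : 2 ≤ k) (hV : ∀ n e, e < k → V (k * n + e) = (A e).mulVec (V n)) {r : ℕ}
    (c : Fin r → ℤ) (a : Fin r → ℕ) (h : ∀ j, ∑ i, c i * V (a i) j = 0) (s : ℕ) :
    ∀ t, t < k ^ s → ∀ j, ∑ i, c i * V (a i * k ^ s + t) j = 0 := by
  induction s with
  | zero =>
    intro t ht j
    have ht0 : t = 0 := by
      rw [pow_zero] at ht
      omega
    subst ht0
    simpa using h j
  | succ s ih =>
    intro t ht j
    have h1 : t / k < k ^ s := by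
      rw [Nat.div_lt_iff_lt_mul (by omega), ← pow_succ]
      exact ht
    have h2 : ∀ i, a i * k ^ (s + 1) + t = k * (a i * k ^ s + t / k) + t % k := by
      intro i
      have := Nat.div_add_mod t k
      calc a i * k ^ (s + 1) + t = a i * k ^ (s + 1) + (k * (t / k) + t % k) := by rw [this]
        _ = _ := by ring
    have h3 := ih (t / k) h1
    simp only [h2]
    simp only [hV _ _ (Nat.mod_lt t (by omega : 0 < k)), Matrix.mulVec, dotProduct, mul_sum]
    rw [sum_comm]
    apply sum_eq_zero
    intro l _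
    have h4 : ∀ i, c i * (A (t % k) j l * V (a i * k ^ s + t / k) l) =
        A (t % k) j l * (c i * V (a i * k ^ s + t / k) l) := fun i => by ring
    rw [sum_congr rfl fun i _ => h4 i, ← mul_sum, h3 l, mul_zero]

end

/-- a scale with few changes of the length -/
lemma few_jumps {g : ℕ → ℕ} {C : ℕ} (hg : ∀ S, g S ≤ C * (S + 2)) :
    ∃ᶠ S : ℕ in atTop, g (S + 1) ≤ g S + C := by
  by_contra hcon
  rw [not_frequently, eventually_atTop] at hcon
  obtain ⟨S0, hS0⟩ := hcon
  have h1 : ∀ j, j * (C + 1) ≤ g (S0 + j) := by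
    intro j
    induction j with
    | zero => simp
    | succ j ih =>
      have h2 := hS0 (S0 + j) (by omega)
      push Not at h2
      rw [show S0 + (j + 1) = S0 + j + 1 by ring]
      have h3 : (j + 1) * (C + 1) = j * (C + 1) + (C + 1) := by ring
      omega
  have h2 := (h1 (C * (S0 + 2) + 1)).trans (hg _)
  nlinarith

/-- **Integer registers.** -/
theorem main_reg {b k D : ℕ} (hb : 2 ≤ b) (hk : 2 ≤ k) {f : ℕ → List ℤ} {B : ℕ}
    (hB : ∀ n, ∀ x ∈ f n, |x| ≤ B) (hmono : Monotone fun n => (f n).length) {C : ℕ}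
    (hlen : ∀ n, (f n).length ≤ C * ((Nat.digits k n).length + 1)) (hne : ∃ n, f n ≠ [])
    {V : ℕ → Fin D → ℤ} {A : ℕ → Matrix (Fin D) (Fin D) ℤ}
    (hV : ∀ n e, e < k → V (k * n + e) = (A e).mulVec (V n)) {L : Fin D → ℤ}
    (hu : ∀ n, val b (f n) = ∑ i, L i * V n i) {d : ℕ → ℤ}
    (hd : ∀ N, (List.range N).flatMap f = (List.range (tot f N)).map d) {x : ℝ}
    (hx : HasSum (fun t => (d t : ℝ) / (b : ℝ) ^ (t + 1)) x) (hirr : Irrational x) :
    Transcendental ℚ x := by
  classical
  obtain ⟨n1, hn1⟩ := hne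
  have hpos : ∀ n, n1 ≤ n → 1 ≤ (f n).length := fun n hn =>
    (List.length_pos_iff.2 hn1).trans_le (hmono hn)
  have htt : Tendsto (fun N => (tot f N : ℝ)) atTop atTop := by
    refine tendsto_natCast_atTop_atTop.comp ?_
    refine tendsto_atTop_mono (f := fun N => N - n1) ?_ (tendsto_sub_atTop_nat n1)
    intro N
    unfold tot
    rw [len_range]
    rcases le_total N n1 with h | h
    · omega
    · rw [range_eq_Ico, ← sum_Ico_consecutive _ (Nat.zero_le n1) h]
      have h2 : ∑ n ∈ Ico n1 N, 1 ≤ ∑ n ∈ Ico n1 N, (f n).length :=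
        sum_le_sum fun n hn => hpos n (Finset.mem_Ico.1 hn).1
      rw [sum_const, Nat.card_Ico, smul_eq_mul, mul_one] at h2
      omega
  -- good scales
  set g : ℕ → ℕ := fun S => (f (k ^ S)).length with hg
  have hgC : ∀ S, g S ≤ C * (S + 2) := by
    intro S
    refine (hlen _).trans (Nat.mul_le_mul_left _ ?_)
    have h1 : k ^ S < k ^ (S + 1) := Nat.pow_lt_pow_right (by omega) (by omega)
    have := (Nat.digits_length_le_iff (b := k) (by omega) _).2 h1
    omega
  have hfr := few_jumps hgC
  -- the number of leading digits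
  obtain ⟨m, hm⟩ : ∃ m : ℕ, (C + 1) * (D + 2) < k ^ m :=
    ⟨(C + 1) * (D + 2), Nat.lt_pow_self (by omega)⟩
  have hn1k : n1 < k ^ n1 := Nat.lt_pow_self (by omega)
  set P : ℕ → Finset ℕ → Prop := fun s T => ∃ v, (∀ a ∈ T, (f (a * k ^ s)).length = v) ∧
    tot f (k ^ (m + 1 + s)) ≤ k ^ (m + 1) * (C + 1) * (k ^ s * v) with hP
  have hfr2 : ∃ᶠ s : ℕ in atTop, ∃ T ∈ (Ico (k ^ m) (k ^ (m + 1))).powersetCard (D + 3), P s T := by
    rw [frequently_atTop] at hfr ⊢
    intro s0
    obtain ⟨S, hS, h1⟩ := hfr (s0 + m + n1)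
    obtain ⟨s, rfl⟩ : ∃ s, S = m + s := ⟨S - m, by omega⟩
    refine ⟨s, by omega, ?_⟩
    have h2 : ∀ a ∈ Ico (k ^ m) (k ^ (m + 1)),
        (f (a * k ^ s)).length ∈ Icc (g (m + s)) (g (m + s) + C) := by
      intro a ha
      rw [Finset.mem_Ico] at ha
      rw [Finset.mem_Icc]
      refine ⟨hmono ?_, le_trans (hmono ?_) h1⟩
      · rw [pow_add]
        exact Nat.mul_le_mul_right _ ha.1
      · rw [show m + s + 1 = m + 1 + s by ring, pow_add]
        exact Nat.mul_le_mul_right _ ha.2.le
    have h3 : (Icc (g (m + s)) (g (m + s) + C)).card * (D + 2) < (Ico (k ^ m) (k ^ (m + 1))).card := by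
      rw [Nat.card_Icc, Nat.card_Ico, pow_succ]
      have h4 : k ^ m * 2 ≤ k ^ m * k := Nat.mul_le_mul_left _ hk
      have h5 : g (m + s) + C + 1 - g (m + s) = C + 1 := by omega
      rw [h5]
      omega
    obtain ⟨v, hv, hv2⟩ := exists_lt_card_fiber_of_mul_lt_card_of_maps_to h2 h3
    obtain ⟨T, hT, hT2⟩ := exists_subset_card_eq (show D + 3 ≤ _ from hv2)
    refine ⟨T, mem_powersetCard.2 ⟨fun a ha => (mem_filter.1 (hT ha)).1, hT2⟩, v,
      fun a ha => (mem_filter.1 (hT ha)).2, ?_⟩
    rw [Finset.mem_Icc] at hv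
    have h6 : 1 ≤ g (m + s) := by
      apply hpos
      have : k ^ n1 ≤ k ^ (m + s) := Nat.pow_le_pow_right (by omega) (by omega)
      omega
    have h7 : tot f (k ^ (m + 1 + s)) ≤ k ^ (m + 1 + s) * g (m + s + 1) := by
      unfold tot
      rw [len_range]
      calc ∑ n ∈ range (k ^ (m + 1 + s)), (f n).length
          ≤ ∑ n ∈ range (k ^ (m + 1 + s)), g (m + s + 1) := by
            apply sum_le_sum
            intro n hn
            apply hmono
            rw [mem_range] at hn
            rw [show m + s + 1 = m + 1 + s by ring]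
            exact hn.le
        _ = _ := by rw [sum_const, card_range, smul_eq_mul]
    refine h7.trans ?_
    have h8 : g (m + s + 1) ≤ (C + 1) * v := by
      have h9 : g (m + s) + C ≤ v + C * v := by
        apply Nat.add_le_add hv.1
        calc C = C * 1 := (mul_one C).symm
          _ ≤ C * v := Nat.mul_le_mul_left _ (by omega)
      calc g (m + s + 1) ≤ g (m + s) + C := h1
        _ ≤ v + C * v := h9
        _ = (C + 1) * v := by ring
    calc k ^ (m + 1 + s) * g (m + s + 1) ≤ k ^ (m + 1 + s) * ((C + 1) * v) :=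
          Nat.mul_le_mul_left _ h8
      _ = k ^ (m + 1) * (C + 1) * (k ^ s * v) := by rw [pow_add]; ring
  obtain ⟨T, hT, hfr3⟩ : ∃ T ∈ (Ico (k ^ m) (k ^ (m + 1))).powersetCard (D + 3),
      ∃ᶠ s : ℕ in atTop, P s T := by
    by_contra hcon
    push Not at hcon
    have h2 := (eventually_all_finset _).2 hcon
    obtain ⟨s, ⟨T, hT, h3⟩, h4⟩ := (hfr2.and_eventually h2).exists
    exact h4 T hT h3
  rw [mem_powersetCard] at hT
  set e := T.orderEmbOfFin hT.2 with he
  have hcD : Fintype.card (Fin D) + 2 = D + 2 := by rw [Fintype.card_fin]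
  set a : Fin (Fintype.card (Fin D) + 2) → ℕ := fun i => e ⟨i, by have := i.2; omega⟩ with ha
  have hamono : StrictMono a := by
    intro i j hij
    exact e.strictMono (by exact hij)
  have hamem : ∀ i, a i ∈ T := fun i => orderEmbOfFin_mem T hT.2 _
  have hanext : ∀ i, ∃ z ∈ T, a i + 1 ≤ z := by
    intro i
    refine ⟨e ⟨i + 1, by have := i.2; omega⟩, orderEmbOfFin_mem T hT.2 _, ?_⟩
    exact e.strictMono (by
      show (i : ℕ) < (i : ℕ) + 1
      omega)
  have halt : ∀ i, a i < k ^ (m + 1) := fun i => (Finset.mem_Ico.1 (hT.1 (hamem i))).2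
  obtain ⟨c, hc0, -, hc⟩ := exists_coef b (fun i q => [V (a i) q])
  have hc2 : ∀ j, ∑ i, c i * V (a i) j = 0 := by
    intro j
    have := hc j
    simpa [Pool.Agent.HS38.TT.val] using this
  refine core hb hk hB htt hd hx hirr a hamono halt c hc0 (m := m + 1) (M := k ^ (m + 1) * (C + 1))
    (hfr3.mono ?_)
  rintro s ⟨v, hv1, hv2⟩
  -- the lengths
  have hcl : ∀ i t, t < k ^ s → (f (a i * k ^ s + t)).length = v := by
    intro i t ht
    apply le_antisymm
    · obtain ⟨z, hz, hz2⟩ := hanext i
      rw [← hv1 z hz]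
      apply hmono
      have : (a i + 1) * k ^ s ≤ z * k ^ s := Nat.mul_le_mul_right _ hz2
      nlinarith
    · rw [← hv1 (a i) (hamem i)]
      exact hmono (Nat.le_add_right _ _)
  have hblk := lin_blk b c (fun i t => f (a i * k ^ s + t)) (k ^ s)
    (fun i j t ht => (hcl i t ht).trans (hcl j t ht).symm) (by
      intro t ht
      simp only [hu]
      have h3 := lin_reg hk hV c a hc2 s t ht
      simp only [mul_sum]
      rw [sum_comm]
      apply sum_eq_zero
      intro j _
      have h4 : ∀ i, c i * (L j * V (a i * k ^ s + t) j) = L j * (c i * V (a i * k ^ s + t) j) :=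
        fun i => by ring
      rw [sum_congr rfl fun i _ => h4 i, ← mul_sum, h3 j, mul_zero])
  refine ⟨k ^ s * v, fun i => ?_, hblk.2, hv2⟩
  unfold blk
  rw [len_range]
  calc ∑ t ∈ range (k ^ s), (f (a i * k ^ s + t)).length = ∑ t ∈ range (k ^ s), v :=
        sum_congr rfl fun t ht => hcl i t (mem_range.1 ht)
    _ = k ^ s * v := by rw [sum_const, card_range, smul_eq_mul]

/-! ### the digits of a monotone sequence -/

/-- the word of the digits of `n` in base `b`, from the most significant one -/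
def wrd (b n : ℕ) : List ℤ := (Nat.digits b n).reverse.map (fun d : ℕ => (d : ℤ))

lemma val_wrd (b n : ℕ) : val b (wrd b n) = n := by
  unfold wrd
  have h : ∀ l : List ℕ, val b (l.reverse.map (fun d : ℕ => (d : ℤ))) = ((Nat.ofDigits b l : ℕ) : ℤ) := by
    intro l
    induction l with
    | nil => simp [Pool.Agent.HS38.TT.val]
    | cons x l ih =>
      rw [List.reverse_cons, List.map_append, val_append, ih, Nat.ofDigits_cons]
      simp [Pool.Agent.HS38.TT.val]
      ring
  rw [h, Nat.ofDigits_digits]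

lemma wrd_length (b n : ℕ) : (wrd b n).length = (Nat.digits b n).length := by
  simp [wrd]

/-- sequences with such recurrences grow at most polynomially -/
lemma reg_growth {k D : ℕ} (hk : 2 ≤ k) {V : ℕ → Fin D → ℤ} {A : ℕ → Matrix (Fin D) (Fin D) ℤ}
    (hV : ∀ n e, e < k → V (k * n + e) = (A e).mulVec (V n)) :
    ∃ G : ℕ, 1 ≤ G ∧ ∀ n i, |V n i| ≤ (G : ℤ) ^ ((Nat.digits k n).length + 1) := by
  obtain ⟨G1, hG1⟩ := Finite.exists_le (fun p : Fin k × Fin D => ∑ l, (A p.1 p.2 l).natAbs)
  obtain ⟨G2, hG2⟩ := Finite.exists_le (fun i : Fin D => (V 0 i).natAbs)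
  refine ⟨G1 + G2 + 1, by omega, fun n => ?_⟩
  set G := G1 + G2 + 1 with hG
  induction n using Nat.strong_induction_on with
  | _ n ih =>
    intro i
    rcases Nat.eq_zero_or_pos n with rfl | hn
    · rw [Nat.digits_zero, List.length_nil, zero_add, pow_one, Int.abs_eq_natAbs]
      have := hG2 i
      exact_mod_cast (by omega : (V 0 i).natAbs ≤ G)
    · have h1 : n / k < n := Nat.div_lt_self hn (by omega)
      have h2 : n = k * (n / k) + n % k := (Nat.div_add_mod n k).symm
      have h3 : (Nat.digits k n).length = (Nat.digits k (n / k)).length + 1 := by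
        rw [Nat.digits_def' (by omega) hn, List.length_cons]
      have h4 : V n i = ∑ l, A (n % k) i l * V (n / k) l := by
        conv_lhs => rw [h2]
        rw [hV _ _ (Nat.mod_lt n (by omega))]
        rfl
      have h5 : ∑ l, |A (n % k) i l| ≤ (G : ℤ) := by
        have h6 := hG1 (⟨n % k, Nat.mod_lt n (by omega)⟩, i)
        simp only at h6
        have h7 : ∑ l, |A (n % k) i l| = ((∑ l, (A (n % k) i l).natAbs : ℕ) : ℤ) := by
          rw [Nat.cast_sum]
          exact sum_congr rfl fun l _ => (Int.natCast_natAbs _).symm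
        rw [h7]
        exact_mod_cast (by omega : ∑ l, (A (n % k) i l).natAbs ≤ G)
      rw [h3, h4]
      calc |∑ l, A (n % k) i l * V (n / k) l| ≤ ∑ l, |A (n % k) i l * V (n / k) l| :=
            abs_sum_le_sum_abs _ _
        _ ≤ ∑ l, |A (n % k) i l| * (G : ℤ) ^ ((Nat.digits k (n / k)).length + 1) := by
            apply sum_le_sum
            intro l _
            rw [abs_mul]
            exact mul_le_mul_of_nonneg_left (ih _ h1 l) (abs_nonneg _)
        _ = (∑ l, |A (n % k) i l|) * (G : ℤ) ^ ((Nat.digits k (n / k)).length + 1) := by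
            rw [sum_mul]
        _ ≤ G * (G : ℤ) ^ ((Nat.digits k (n / k)).length + 1) := by
            apply mul_le_mul_of_nonneg_right h5
            positivity
        _ = _ := by ring

/-- **Concatenation of the values of a regular sequence.** -/
theorem main_reg_nat {b k D : ℕ} (hb : 2 ≤ b) (hk : 2 ≤ k) {u : ℕ → ℕ} (hmono : Monotone u)
    (hne : ∃ n, u n ≠ 0)
    {V : ℕ → Fin D → ℤ} {A : ℕ → Matrix (Fin D) (Fin D) ℤ}
    (hV : ∀ n e, e < k → V (k * n + e) = (A e).mulVec (V n)) {L : Fin D → ℤ}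
    (hu : ∀ n, (u n : ℤ) = ∑ i, L i * V n i) {d : ℕ → ℤ}
    (hd : ∀ N, (List.range N).flatMap (fun n => wrd b (u n)) =
      (List.range (tot (fun n => wrd b (u n)) N)).map d) {x : ℝ}
    (hx : HasSum (fun t => (d t : ℝ) / (b : ℝ) ^ (t + 1)) x) (hirr : Irrational x) :
    Transcendental ℚ x := by
  obtain ⟨G, hG1, hG⟩ := reg_growth hk hV
  have hL : ∀ n, (u n : ℤ) ≤ (∑ i, |L i|) * (G : ℤ) ^ ((Nat.digits k n).length + 1) := by
    intro n
    rw [hu n]
    calc ∑ i, L i * V n i ≤ |∑ i, L i * V n i| := le_abs_self _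
      _ ≤ ∑ i, |L i * V n i| := abs_sum_le_sum_abs _ _
      _ ≤ ∑ i, |L i| * (G : ℤ) ^ ((Nat.digits k n).length + 1) := by
          apply sum_le_sum
          intro i _
          rw [abs_mul]
          exact mul_le_mul_of_nonneg_left (hG n i) (abs_nonneg _)
      _ = _ := by rw [sum_mul]
  set E := (∑ i, |L i|).toNat with hE
  have hE2 : ((E : ℕ) : ℤ) = ∑ i, |L i| := by
    rw [hE]
    exact Int.toNat_of_nonneg (sum_nonneg fun i _ => abs_nonneg _)
  have hle : ∀ n, (wrd b (u n)).length ≤ (E + G) * ((Nat.digits k n).length + 1) := by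
    intro n
    rw [wrd_length, Nat.digits_length_le_iff (by omega)]
    set j := (Nat.digits k n).length with hj
    have h1 : u n ≤ E * G ^ (j + 1) := by
      have := hL n
      rw [← hE2] at this
      exact_mod_cast this
    have h2 : E < b ^ E := Nat.lt_pow_self (by omega)
    have h3 : G < b ^ G := Nat.lt_pow_self (by omega)
    calc u n ≤ E * G ^ (j + 1) := h1
      _ < b ^ E * (b ^ G) ^ (j + 1) := by
          apply Nat.mul_lt_mul_of_lt_of_le h2 (Nat.pow_le_pow_left h3.le _)
          positivity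
      _ = b ^ (E + G * (j + 1)) := by rw [← pow_mul, ← pow_add]
      _ ≤ b ^ ((E + G) * (j + 1)) := by
          apply Nat.pow_le_pow_right (by omega)
          nlinarith
  refine main_reg hb hk (f := fun n => wrd b (u n)) (B := b) ?_ ?_ hle ?_ hV
    (fun n => by rw [val_wrd]; exact hu n) hd hx hirr
  · intro n z hz
    unfold wrd at hz
    rw [List.mem_map] at hz
    obtain ⟨e, he, rfl⟩ := hz
    have := Nat.digits_lt_base (b := b) (by omega) (List.mem_reverse.1 he)
    rw [abs_of_nonneg (Int.natCast_nonneg _)]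
    exact_mod_cast this.le
  · intro n n' h
    show (wrd b (u n)).length ≤ (wrd b (u n')).length
    rw [wrd_length, wrd_length, Nat.digits_length_le_iff (by omega)]
    have h1 : u n' < b ^ (Nat.digits b (u n')).length :=
      (Nat.digits_length_le_iff (by omega) _).1 le_rfl
    exact (hmono h).trans_lt h1
  · obtain ⟨n, hn⟩ := hne
    refine ⟨n, ?_⟩
    intro h
    have h1 : (wrd b (u n)).length = 0 := by rw [h]; rfl
    rw [wrd_length] at h1
    exact hn (Nat.digits_eq_nil_iff_eq_zero.1 (List.eq_nil_of_length_eq_zero h1))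

end Pool.Agent.H86.Sst
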