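import Pool.Agent.H86.Sst.Reg

/-!
# Numbers written by a function, and regular sequences
-/

set_option autoImplicit false

open Filter

namespace Pool.Agent.H86.Sst

open Pool.Agent.HS38.TT

/-- `x` is written by `f` in base `b`: it is the sum of `d t / b ^ (t + 1)`, where `d 0, d 1, …` are the letters
of the infinite word `f 0 f 1 f 2 ⋯`. -/
def Written (f : ℕ → List ℤ) (b : ℕ) (x : ℝ) : Prop :=
  ∃ d : ℕ → ℤ, (∀ N : ℕ, (List.range N).flatMap f =
    (List.range ((List.range N).flatMap f).length).map d) ∧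
    HasSum (fun t : ℕ => (d t : ℝ) / (b : ℝ) ^ (t + 1)) x

/-- The total length of `f 0, …, f (N - 1)` is at least `N ^ δ` for all large `N`. -/
def Dense (f : ℕ → List ℤ) (δ : ℝ) : Prop :=
  ∀ᶠ N : ℕ in atTop, (N : ℝ) ^ δ ≤ (((List.range N).flatMap f).length : ℝ)

/-- `u` is a `k`-regular sequence of integers: it is an integer linear combination of the coordinates of a
sequence `V` of integer vectors, and `V (k n + e)` is the image of `V n` under a matrix which only depends on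
the digit `e`. -/
def Regular (k : ℕ) (u : ℕ → ℤ) : Prop :=
  ∃ (D : ℕ) (V : ℕ → Fin D → ℤ) (A : ℕ → Matrix (Fin D) (Fin D) ℤ) (L : Fin D → ℤ),
    (∀ n e, e < k → V (k * n + e) = (A e).mulVec (V n)) ∧ ∀ n, u n = ∑ i, L i * V n i

/-- machines without a stack -/
theorem top_fin {b k : ℕ} (hb : 2 ≤ b) (hk : 2 ≤ k) {Q X : Type} [Finite Q] [Fintype X]
    (M : Machine Q Empty X) {ε δ : ℝ} (hε : 0 ≤ ε) (hεδ : ((Fintype.card X : ℝ) + 1) * ε < δ)
    (hlen : ∀ᶠ n : ℕ in atTop, ((M.word k n).length : ℝ) ≤ (n : ℝ) ^ ε)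
    (hd : Dense (M.word k) δ) {x : ℝ} (hx : Written (M.word k) b x) :
    ¬ Irrational x ∨ Transcendental ℚ x := by
  by_cases h : Irrational x
  · obtain ⟨d, h1, h2⟩ := hx
    exact Or.inr (main_fin M hb hk hε hεδ hlen hd h1 h2 h)
  · exact Or.inl h

/-- machines with a stack -/
theorem top_push {b k : ℕ} (hb : 2 ≤ b) (hk : 2 ≤ k) {Q Γ X : Type} [Finite Q] [Finite Γ] [Finite X]
    (M : Machine Q Γ X) {δ : ℝ} (hδ : 0 < δ)
    (hlen : ∀ ε : ℝ, 0 < ε → ∀ᶠ n : ℕ in atTop, ((M.word k n).length : ℝ) ≤ (n : ℝ) ^ ε) {C : ℕ}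
    (hc : ∀ n n', (Nat.digits k n).length = (Nat.digits k n').length →
      (M.word k n).length ≤ C * (M.word k n').length)
    (hd : Dense (M.word k) δ) {x : ℝ} (hx : Written (M.word k) b x) :
    ¬ Irrational x ∨ Transcendental ℚ x := by
  have := Fintype.ofFinite X
  by_cases h : Irrational x
  · obtain ⟨d, h1, h2⟩ := hx
    exact Or.inr (main_push M hb hk hδ hlen hc hd h1 h2 h)
  · exact Or.inl h

/-- regular values -/
theorem top_reg {b k : ℕ} (hb : 2 ≤ b) (hk : 2 ≤ k) {f : ℕ → List ℤ} {B C : ℕ}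
    (hB : ∀ n, ∀ z ∈ f n, |z| ≤ B) (hmono : Monotone fun n => (f n).length)
    (hlen : ∀ n, (f n).length ≤ C * ((Nat.digits k n).length + 1)) (hne : ∃ n, f n ≠ [])
    (hr : Regular k fun n => val b (f n)) {x : ℝ} (hx : Written f b x) :
    ¬ Irrational x ∨ Transcendental ℚ x := by
  by_cases h : Irrational x
  · obtain ⟨d, h1, h2⟩ := hx
    obtain ⟨D, V, A, L, h3, h4⟩ := hr
    exact Or.inr (main_reg hb hk hB hmono hlen hne h3 h4 h1 h2 h)
  · exact Or.inl h

/-- monotone regular sequences -/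
theorem top_nat {b k : ℕ} (hb : 2 ≤ b) (hk : 2 ≤ k) {u : ℕ → ℕ} (hmono : Monotone u)
    (hne : ∃ n, u n ≠ 0) (hr : Regular k fun n => (u n : ℤ)) {x : ℝ}
    (hx : Written (fun n => (Nat.digits b (u n)).reverse.map (fun e : ℕ => (e : ℤ))) b x) :
    ¬ Irrational x ∨ Transcendental ℚ x := by
  by_cases h : Irrational x
  · obtain ⟨d, h1, h2⟩ := hx
    obtain ⟨D, V, A, L, h3, h4⟩ := hr
    exact Or.inr (main_reg_nat hb hk hmono hne h3 h4 h1 h2 h)
  · exact Or.inl h

end Pool.Agent.H86.Sst
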